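import Mathlib

set_option autoImplicit false

/-!
The field generated over the rationals by all real square roots of natural numbers,
its normalized trace, and basic facts about it.
-/

namespace Pool.Agent.MQ

open IntermediateField Polynomial

/-- the subfield of the reals generated by all square roots of naturals -/
noncomputable def EE : IntermediateField ℚ ℝ :=
  IntermediateField.adjoin ℚ (Set.range (fun n : ℕ => Real.sqrt (n : ℝ)))

/-- the field generated by all square roots of naturals, as a type -/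
def E : Type := ↥EE

noncomputable instance instFieldE : Field E := inferInstanceAs (Field ↥EE)

/-- the inclusion of `E` in the reals -/
noncomputable def emb : E →+* ℝ := (EE.val : ↥EE →+* ℝ)

lemma emb_inj : Function.Injective emb := emb.injective

instance instCharZeroE : CharZero E := emb.charZero

noncomputable instance instAlgQE : Algebra ℚ E := DivisionRing.toRatAlgebra

/-- the inclusion of `E` in the reals, as a morphism of rational algebras -/
noncomputable def embQ : E →ₐ[ℚ] ℝ := emb.toRatAlgHom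

@[simp] lemma embQ_apply (x : E) : embQ x = emb x := rfl

lemma range_emb (y : ℝ) : (∃ x, emb x = y) ↔ y ∈ EE := by
  constructor
  · rintro ⟨x, rfl⟩
    exact (x : ↥EE).2
  · intro h
    exact ⟨(⟨y, h⟩ : ↥EE), rfl⟩

/-- the square root of `n` as an element of `E` -/
noncomputable def r (n : ℕ) : E :=
  (⟨Real.sqrt (n : ℝ), IntermediateField.subset_adjoin ℚ _ ⟨n, rfl⟩⟩ : ↥EE)

@[simp] lemma emb_r (n : ℕ) : emb (r n) = Real.sqrt (n : ℝ) := rfl

lemma r_sq (n : ℕ) : r n ^ 2 = (n : E) := by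
  apply emb_inj
  rw [map_pow, emb_r, Real.sq_sqrt (Nat.cast_nonneg n)]
  simp

lemma r_mul (m n : ℕ) : r (m * n) = r m * r n := by
  apply emb_inj
  simp [Nat.cast_mul, Real.sqrt_mul (Nat.cast_nonneg m)]

lemma r_integral (n : ℕ) : IsIntegral ℤ (r n) := by
  refine ⟨X ^ 2 - C (n : ℤ), ?_, ?_⟩
  · exact monic_X_pow_sub_C _ (by norm_num)
  · simp [r_sq]

lemma r_integralQ (n : ℕ) : IsIntegral ℚ (r n) := (r_integral n).tower_top

lemma r_zero : r 0 = 0 := by
  apply emb_inj; simp

lemma r_one : r 1 = 1 := by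
  apply emb_inj; simp

lemma r_ne_zero {n : ℕ} (hn : n ≠ 0) : r n ≠ 0 := by
  intro h
  have := r_sq n
  rw [h] at this
  simp at this
  exact hn (by exact_mod_cast this.symm)

/-- the subfield of `E` generated by the square roots of elements of `S` -/
noncomputable def fld (S : Set ℕ) : IntermediateField ℚ E := IntermediateField.adjoin ℚ (r '' S)

lemma map_fld (S : Set ℕ) : (fld S).map embQ =
    IntermediateField.adjoin ℚ ((fun d : ℕ => Real.sqrt (d : ℝ)) '' S) := by
  unfold fld
  rw [IntermediateField.adjoin_map, Set.image_image]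
  rfl

lemma mem_fld_iff (S : Set ℕ) (x : E) : x ∈ fld S ↔
    emb x ∈ IntermediateField.adjoin ℚ ((fun d : ℕ => Real.sqrt (d : ℝ)) '' S) := by
  rw [← map_fld, IntermediateField.mem_map]
  constructor
  · intro h
    exact ⟨x, h, rfl⟩
  · rintro ⟨y, hy, hxy⟩
    have : y = x := emb_inj hxy
    rwa [this] at hy

lemma fld_univ : fld Set.univ = ⊤ := by
  rw [eq_top_iff]
  intro x _
  rw [mem_fld_iff, Set.image_univ]
  exact (range_emb (emb x)).1 ⟨x, rfl⟩

lemma fld_mono {S T : Set ℕ} (h : S ⊆ T) : fld S ≤ fld T :=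
  IntermediateField.adjoin.mono _ _ _ (Set.image_mono h)

lemma r_mem_fld {S : Set ℕ} {d : ℕ} (h : d ∈ S) : r d ∈ fld S :=
  IntermediateField.subset_adjoin ℚ _ ⟨d, h, rfl⟩

lemma fld_le_iff {S : Set ℕ} {K : IntermediateField ℚ E} : fld S ≤ K ↔ ∀ d ∈ S, r d ∈ K := by
  unfold fld
  rw [IntermediateField.adjoin_le_iff]
  constructor
  · intro h d hd
    exact h ⟨d, hd, rfl⟩
  · rintro h _ ⟨d, hd, rfl⟩
    exact h d hd

lemma exists_finset_fld {S : Set ℕ} {x : E} (hx : x ∈ fld S) :
    ∃ s : Finset ℕ, (s : Set ℕ) ⊆ S ∧ x ∈ fld (s : Set ℕ) := by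
  classical
  obtain ⟨T, hT, hxT⟩ := IntermediateField.exists_finset_of_mem_adjoin hx
  obtain ⟨s, hs, hsT⟩ := Finset.subset_set_image_iff.mp hT
  refine ⟨s, hs, ?_⟩
  unfold fld
  rw [← hsT] at hxT
  simpa using hxT

/-- `L k` is generated by the square roots of `0, 1, ..., k-1`. -/
noncomputable def L (k : ℕ) : IntermediateField ℚ E := fld (Set.Iio k)

lemma L_mono {k l : ℕ} (h : k ≤ l) : L k ≤ L l := fld_mono (Set.Iio_subset_Iio h)

lemma r_mem_L {k d : ℕ} (h : d < k) : r d ∈ L k := r_mem_fld h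

lemma exists_L (x : E) : ∃ k, x ∈ L k := by
  have hx : x ∈ fld Set.univ := by rw [fld_univ]; trivial
  obtain ⟨s, -, hs⟩ := exists_finset_fld hx
  refine ⟨s.sup id + 1, ?_⟩
  refine fld_mono ?_ hs
  intro d hd
  have : d ≤ s.sup id := Finset.le_sup (f := id) hd
  exact Nat.lt_succ_of_le this

lemma fld_insert (S : Set ℕ) (d : ℕ) :
    fld (insert d S) = fld S ⊔ IntermediateField.adjoin ℚ {r d} := by
  unfold fld
  rw [Set.image_insert_eq, ← IntermediateField.adjoin_union, Set.union_comm, Set.singleton_union]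

lemma L_succ (k : ℕ) : L (k + 1) = L k ⊔ IntermediateField.adjoin ℚ {r k} := by
  unfold L
  rw [← fld_insert]
  congr 1
  ext x; simp

lemma L_zero : L 0 = ⊥ := by
  unfold L fld
  simp

instance : Algebra.IsAlgebraic ℚ E := by
  constructor
  intro x
  have h : IsAlgebraic ℚ (emb x) := by
    have h2 : Algebra.IsAlgebraic ℚ EE := by
      unfold EE
      apply IntermediateField.isAlgebraic_adjoin
      rintro _ ⟨n, rfl⟩
      refine ⟨X ^ 2 - C (n : ℚ), monic_X_pow_sub_C _ (by norm_num), ?_⟩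
      simp
    have h3 := h2.isAlgebraic (⟨emb x, (range_emb _).1 ⟨x, rfl⟩⟩ : EE)
    exact (isAlgebraic_algHom_iff EE.val EE.val.injective).2 h3
  exact (isAlgebraic_algHom_iff embQ embQ.injective).1 h

instance : Algebra.IsIntegral ℚ E := Algebra.IsAlgebraic.isIntegral

instance finiteDimensional_fld_finset (s : Finset ℕ) : FiniteDimensional ℚ (fld (s : Set ℕ)) := by
  unfold fld
  apply IntermediateField.finiteDimensional_adjoin
  rintro _ ⟨n, _, rfl⟩
  exact r_integralQ n

instance finiteDimensional_L (k : ℕ) : FiniteDimensional ℚ (L k) := by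
  unfold L fld
  have : Finite (r '' (Set.Iio k)) := (Set.finite_Iio k).image _
  apply IntermediateField.finiteDimensional_adjoin
  rintro _ ⟨n, _, rfl⟩
  exact r_integralQ n

lemma splits_r (n : ℕ) : ((minpoly ℚ (r n)).map (algebraMap ℚ E)).Splits := by
  have h1 : (minpoly ℚ (r n)) ∣ (X ^ 2 - C (n : ℚ)) := by
    apply minpoly.dvd
    simp [r_sq]
  have h2 : ((X ^ 2 - C (n : ℚ) : ℚ[X]).map (algebraMap ℚ E)) = (X - C (r n)) * (X - C (- r n)) := by
    have : (X - C (r n)) * (X - C (- r n)) = X ^ 2 - C (r n ^ 2) := by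
      rw [C_neg, C_pow]; ring
    rw [this, r_sq]
    simp
  refine Polynomial.Splits.of_dvd ?_ ?_ (Polynomial.map_dvd (algebraMap ℚ E) h1)
  · rw [h2]
    exact (Polynomial.Splits.X_sub_C _).mul (Polynomial.Splits.X_sub_C _)
  · rw [h2]
    exact mul_ne_zero (X_sub_C_ne_zero _) (X_sub_C_ne_zero _)

instance normal_E : Normal ℚ E := by
  rw [normal_iff]
  intro x
  refine ⟨Algebra.IsIntegral.isIntegral x, ?_⟩
  have hx : x ∈ IntermediateField.adjoin ℚ (r '' Set.univ) := by
    have : x ∈ fld Set.univ := by rw [fld_univ]; trivial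
    exact this
  refine IntermediateField.splits_of_mem_adjoin ℚ E ?_ hx
  rintro _ ⟨n, -, rfl⟩
  exact ⟨r_integralQ n, splits_r n⟩

lemma map_r {A : Type*} [Field A] (f g : E →+* A) (n : ℕ) : f (r n) = g (r n) ∨ f (r n) = - g (r n) := by
  have h : f (r n) ^ 2 = g (r n) ^ 2 := by
    rw [← map_pow, ← map_pow, r_sq]; simp
  exact sq_eq_sq_iff_eq_or_eq_neg.mp h

lemma map_r_self (f : E →ₐ[ℚ] E) (n : ℕ) : f (r n) = r n ∨ f (r n) = - r n :=
  map_r (f : E →+* E) (RingHom.id E) n

lemma fld_stable {S : Set ℕ} (σ : E →ₐ[ℚ] E) {x : E} (hx : x ∈ fld S) : σ x ∈ fld S := by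
  have h : fld S ≤ (fld S).comap σ := by
    rw [fld_le_iff]
    intro d hd
    change σ (r d) ∈ fld S
    rcases map_r_self σ d with h | h
    · rw [h]; exact r_mem_fld hd
    · rw [h]; exact neg_mem (r_mem_fld hd)
  exact h hx

lemma L_stable {k : ℕ} (σ : E →ₐ[ℚ] E) {x : E} (hx : x ∈ L k) : σ x ∈ L k := fld_stable σ hx

section noRat

attribute [-instance] DivisionRing.toRatAlgebra

instance normal_fld (S : Set ℕ) : Normal ℚ (fld S) := by
  rw [IntermediateField.normal_iff_forall_map_le]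
  rintro σ _ ⟨x, hx, rfl⟩
  exact fld_stable σ hx

instance isGalois_fld (S : Set ℕ) : IsGalois ℚ (fld S) where

instance isGalois_L (k : ℕ) : IsGalois ℚ (L k) := isGalois_fld _

/-- For a subfield `M` not containing `r d` there is an automorphism over `M` moving `r d`. -/
lemma exists_conj (M : IntermediateField ℚ E) (d : ℕ) (h : r d ∉ M) :
    ∃ σ : E ≃ₐ[ℚ] E, (∀ x ∈ M, σ x = x) ∧ σ (r d) = - r d := by
  have hn : Normal M E := Normal.tower_top_of_normal ℚ M E
  have hdvd : (minpoly M (r d)) ∣ (X ^ 2 - C (d : M)) := by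
    apply minpoly.dvd
    simp [r_sq]
  have hint : IsIntegral M (r d) := (r_integralQ d).tower_top
  have hdeg : 2 ≤ (minpoly M (r d)).natDegree := by
    rw [minpoly.two_le_natDegree_iff hint]
    rintro ⟨y, hy⟩
    apply h
    rw [← hy]
    exact y.2
  have heq : minpoly M (r d) = (X ^ 2 - C (d : M)) := by
    refine (Polynomial.eq_of_monic_of_dvd_of_natDegree_le (minpoly.monic hint)
      (monic_X_pow_sub_C _ (by norm_num)) hdvd ?_).symm
    rw [natDegree_X_pow_sub_C]
    exact hdeg
  have hroot : Polynomial.aeval (- r d) (minpoly M (r d)) = 0 := by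
    rw [heq]
    simp [r_sq]
  obtain ⟨σ, hσ⟩ := minpoly.exists_algEquiv_of_root' hint.isAlgebraic hroot
  refine ⟨(σ.restrictScalars ℚ : E ≃ₐ[ℚ] E), ?_, ?_⟩
  · intro x hx
    exact σ.commutes ⟨x, hx⟩
  · exact hσ

end noRat

end Pool.Agent.MQ
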