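import Pool.Agent.MQ.Main

set_option autoImplicit false

namespace Pool.Agent.MQ

open IntermediateField Polynomial

lemma isIntegral_emb {x : E} : IsIntegral ℤ (emb x) ↔ IsIntegral ℤ x :=
  isIntegral_algHom_iff emb.toIntAlgHom emb_inj

theorem real_main :
    ∀ S : Set ℕ,
      ¬ FiniteDimensional ℚ
          (IntermediateField.adjoin ℚ ((fun d : ℕ => Real.sqrt (d : ℝ)) '' S)) →
      ∀ n : ℕ, ∃ m : ℕ, ∃ a : Fin m → ℝ,
        (∀ i, a i ∈ IntermediateField.adjoin ℚ ((fun d : ℕ => Real.sqrt (d : ℝ)) '' S) ∧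
              IsIntegral ℤ (a i)) ∧
        ¬ ∃ b : Fin n → ℝ,
            (∀ i, b i ∈ IntermediateField.adjoin ℚ ((fun d : ℕ => Real.sqrt (d : ℝ)) '' S) ∧
                  IsIntegral ℤ (b i)) ∧
            ∑ i, (a i) ^ 2 = ∑ i, (b i) ^ 2 := by
  intro S hS n
  have hinf : ∀ k, ∃ d ∈ S, r d ∉ L k := by
    intro k
    by_contra hcon
    push Not at hcon
    apply hS
    have hle : IntermediateField.adjoin ℚ ((fun d : ℕ => Real.sqrt (d : ℝ)) '' S) ≤
        IntermediateField.adjoin ℚ ((fun d : ℕ => Real.sqrt (d : ℝ)) '' (Set.Iio k)) := by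
      rw [IntermediateField.adjoin_le_iff]
      rintro _ ⟨d, hd, rfl⟩
      have := (mem_fld_iff (Set.Iio k) (r d)).1 (hcon d hd)
      exact this
    have hfin : FiniteDimensional ℚ
        (IntermediateField.adjoin ℚ ((fun d : ℕ => Real.sqrt (d : ℝ)) '' (Set.Iio k))) := by
      have : Finite ((fun d : ℕ => Real.sqrt (d : ℝ)) '' (Set.Iio k)) := (Set.finite_Iio k).image _
      apply IntermediateField.finiteDimensional_adjoin
      rintro _ ⟨m, _, rfl⟩
      refine ⟨X ^ 2 - C (m : ℚ), monic_X_pow_sub_C _ (by norm_num), ?_⟩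
      simp
    exact FiniteDimensional.of_injective (IntermediateField.inclusion hle).toLinearMap
      (IntermediateField.inclusion hle).injective
  obtain ⟨α, m, ⟨a, ha, hα⟩, hn⟩ := main S hinf n
  refine ⟨m, fun i => emb (a i), fun i => ⟨(mem_fld_iff S _).1 (ha i).1, isIntegral_emb.2 (ha i).2⟩, ?_⟩
  rintro ⟨b, hb, hab⟩
  apply hn
  have hbE : ∀ i, ∃ y : E, emb y = b i := by
    intro i
    rw [range_emb]
    have h1 : IntermediateField.adjoin ℚ ((fun d : ℕ => Real.sqrt (d : ℝ)) '' S) ≤ EE :=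
      IntermediateField.adjoin.mono _ _ _ (Set.image_subset_range _ _)
    exact h1 (hb i).1
  choose y hy using hbE
  refine ⟨y, fun i => ⟨(mem_fld_iff S _).2 (by rw [hy]; exact (hb i).1),
    isIntegral_emb.1 (by rw [hy]; exact (hb i).2)⟩, ?_⟩
  apply emb_inj
  rw [hα, map_sum, map_sum]
  simp only [map_pow, hy]
  exact hab

end Pool.Agent.MQ
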