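import Pool.Agent.MQ.Step

set_option autoImplicit false

namespace Pool.Agent.MQ

open IntermediateField Polynomial

section noRat

attribute [-instance] DivisionRing.toRatAlgebra

lemma isIntegral_int (n : ℤ) : IsIntegral ℤ (n : E) := by
  simpa using (isIntegral_algebraMap (R := ℤ) (A := E) (x := n))

lemma bezout {N p : ℕ} (h : N.Coprime p) {w : E} (h1 : IsIntegral ℤ (N * w))
    (h2 : IsIntegral ℤ (p * w)) : IsIntegral ℤ w := by
  have hb : ((N.gcdA p : ℤ) : E) * (N : E) + ((N.gcdB p : ℤ) : E) * (p : E) = 1 := by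
    have := Nat.gcd_eq_gcd_ab N p
    rw [Nat.Coprime.gcd_eq_one h] at this
    have h3 : ((1 : ℤ) : E) = ((N * N.gcdA p + p * N.gcdB p : ℤ) : E) := by
      rw [← this]; simp
    push_cast at h3
    rw [h3]
    ring
  have : w = ((N.gcdA p : ℤ) : E) * (N * w) + ((N.gcdB p : ℤ) : E) * (p * w) := by
    calc w = 1 * w := by ring
      _ = (((N.gcdA p : ℤ) : E) * (N : E) + ((N.gcdB p : ℤ) : E) * (p : E)) * w := by rw [hb]
      _ = _ := by ring
  rw [this]
  exact ((isIntegral_int _).mul h1).add ((isIntegral_int _).mul h2)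

lemma add_pow_cong {p : ℕ} (hp : p.Prime) {x y : E} (hx : IsIntegral ℤ x) (hy : IsIntegral ℤ y) :
    IsIntegral ℤ (((x + y) ^ (p ^ 2) - x ^ (p ^ 2) - y ^ (p ^ 2)) / p) := by
  obtain ⟨s, hs⟩ := exists_add_pow_prime_pow_eq hp (⟨x, hx⟩ : integralClosure ℤ E) ⟨y, hy⟩ 2
  have h := congrArg (fun t : integralClosure ℤ E => (t : E)) hs
  push_cast at h
  have hp0 : (p : E) ≠ 0 := by exact_mod_cast hp.ne_zero
  have : ((x + y) ^ (p ^ 2) - x ^ (p ^ 2) - y ^ (p ^ 2)) / p = x * y * (s : E) := by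
    rw [h]
    field_simp
    ring
  rw [this]
  exact (hx.mul hy).mul s.2

/-- the Frobenius property: `z ^ (p^2) ≡ z` modulo `p` for all integral `z ∈ M` -/
def Frob (p : ℕ) (M : IntermediateField ℚ E) : Prop :=
  ∀ z ∈ M, IsIntegral ℤ z → IsIntegral ℤ ((z ^ (p ^ 2) - z) / p)

lemma frob_nat {p : ℕ} (hp : p.Prime) (n : ℤ) : IsIntegral ℤ (((n : E) ^ (p ^ 2) - n) / p) := by
  have hdvd : (p : ℤ) ∣ n ^ (p ^ 2) - n := by
    have : Fact p.Prime := ⟨hp⟩
    rw [← ZMod.intCast_zmod_eq_zero_iff_dvd]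
    push_cast
    rw [ZMod.pow_card_pow, sub_self]
  obtain ⟨k, hk⟩ := hdvd
  have hp0 : (p : E) ≠ 0 := by exact_mod_cast hp.ne_zero
  have : ((n : E) ^ (p ^ 2) - n) / p = (k : E) := by
    have h2 : ((n ^ (p ^ 2) - n : ℤ) : E) = ((p * k : ℤ) : E) := by rw [hk]
    push_cast at h2
    rw [h2]
    field_simp
  rw [this]
  exact isIntegral_int k

lemma frob_step {p : ℕ} (hp : p.Prime) {M M' : IntermediateField ℚ E} (hM : Frob p M) (ω : E)
    (hω : IsIntegral ℤ ω) (hωF : IsIntegral ℤ ((ω ^ (p ^ 2) - ω) / p)) (N : ℕ) (hN : N.Coprime p)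
    (h : ∀ z ∈ M', IsIntegral ℤ z → ∃ y1 ∈ M, ∃ y2 ∈ M, IsIntegral ℤ y1 ∧ IsIntegral ℤ y2 ∧
      N * z = y1 + y2 * ω) : Frob p M' := by
  intro z hz hzi
  obtain ⟨y1, hy1, y2, hy2, hy1i, hy2i, hNz⟩ := h z hz hzi
  have hp0 : (p : E) ≠ 0 := by exact_mod_cast hp.ne_zero
  have e1 := add_pow_cong hp hy1i (hy2i.mul hω)
  have e2 := hM y1 hy1 hy1i
  have e3 := hM y2 hy2 hy2i
  have e4 : IsIntegral ℤ (((y2 * ω) ^ (p ^ 2) - y2 * ω) / p) := by
    have : ((y2 * ω) ^ (p ^ 2) - y2 * ω) / p =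
      ((y2 ^ (p ^ 2) - y2) / p) * ω ^ (p ^ 2) + y2 * ((ω ^ (p ^ 2) - ω) / p) := by
      field_simp
      ring
    rw [this]
    exact (e3.mul (hω.pow _)).add (hy2i.mul hωF)
  have e5 : IsIntegral ℤ (((N * z) ^ (p ^ 2) - N * z) / p) := by
    have : ((N * z) ^ (p ^ 2) - N * z) / p =
      ((y1 + y2 * ω) ^ (p ^ 2) - y1 ^ (p ^ 2) - (y2 * ω) ^ (p ^ 2)) / p + (y1 ^ (p ^ 2) - y1) / p
        + ((y2 * ω) ^ (p ^ 2) - y2 * ω) / p := by
      rw [hNz]
      field_simp
      ring
    rw [this]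
    exact (e1.add e2).add e4
  have e6 := frob_nat hp (N : ℤ)
  refine bezout hN ?_ ?_
  · have : (N : E) * ((z ^ (p ^ 2) - z) / p) = ((N * z) ^ (p ^ 2) - N * z) / p
        - (((N : ℤ) : E) ^ (p ^ 2) - ((N : ℤ) : E)) / p * z ^ (p ^ 2) := by
      push_cast
      field_simp
      ring
    rw [this]
    exact e5.sub (e6.mul (hzi.pow _))
  · have : (p : E) * ((z ^ (p ^ 2) - z) / p) = z ^ (p ^ 2) - z := by
      field_simp
    rw [this]
    exact (hzi.pow _).sub hzi

lemma frob_bot {p : ℕ} (hp : p.Prime) : Frob p ⊥ := by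
  intro z hz hzi
  rw [IntermediateField.mem_bot] at hz
  obtain ⟨q, rfl⟩ := hz
  have hq : IsIntegral ℤ q := by
    exact (isIntegral_algHom_iff ((Algebra.ofId ℚ E).restrictScalars ℤ) (algebraMap ℚ E).injective).1 hzi
  obtain ⟨n, rfl⟩ := IsIntegrallyClosed.isIntegral_iff.1 hq
  have := frob_nat hp n
  simpa using this

lemma fld_insert' (S : Set ℕ) (d : ℕ) : fld (insert d S) = adj (fld S) d := fld_insert S d

lemma L_succ' (k : ℕ) : L (k + 1) = adj (L k) k := L_succ k

lemma L_one : L 1 ≤ L 0 := by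
  intro x hx
  rw [L_succ'] at hx
  obtain ⟨a, ha, b, hb, rfl⟩ := mem_adj hx
  rw [r_zero, mul_zero, add_zero]
  exact ha

lemma frob_r {p : ℕ} (hp : p.Prime) (hp2 : p ≠ 2) {k : ℕ} (hk0 : 0 < k) (hk : k < p) :
    IsIntegral ℤ ((r k ^ (p ^ 2) - r k) / p) := by
  obtain ⟨t, ht⟩ := hp.odd_of_ne_two hp2
  have hp0 : (p : E) ≠ 0 := by exact_mod_cast hp.ne_zero
  have h1 : p ^ 2 = 2 * ((p - 1) * (t + 1)) + 1 := by
    have : p - 1 = 2 * t := by omega
    rw [this, ht]; ring
  have hdvd : (p : ℤ) ∣ (k : ℤ) ^ ((p - 1) * (t + 1)) - 1 := by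
    have : Fact p.Prime := ⟨hp⟩
    rw [← ZMod.intCast_zmod_eq_zero_iff_dvd]
    push_cast
    rw [pow_mul, ZMod.pow_card_sub_one_eq_one, one_pow, sub_self]
    intro h
    rw [ZMod.natCast_eq_zero_iff] at h
    exact absurd (Nat.le_of_dvd hk0 h) (by omega)
  obtain ⟨m, hm⟩ := hdvd
  have hm' : (k : E) ^ ((p - 1) * (t + 1)) - 1 = (p : E) * (m : E) := by
    have h2 : (((k : ℤ) ^ ((p - 1) * (t + 1)) - 1 : ℤ) : E) = ((p * m : ℤ) : E) := by rw [hm]
    push_cast at h2
    exact h2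
  have : (r k ^ (p ^ 2) - r k) / p = m * r k := by
    rw [h1, pow_succ, pow_mul, r_sq]
    have h3 : (k : E) ^ ((p - 1) * (t + 1)) * r k - r k = ((p : E) * (m : E)) * r k := by
      rw [← hm']; ring
    rw [h3]
    field_simp
  rw [this]
  exact (isIntegral_int m).mul (r_integral k)

lemma frob_L {p : ℕ} (hp : p.Prime) (hp2 : p ≠ 2) : ∀ k ≤ p, Frob p (L k) := by
  intro k
  induction k with
  | zero =>
    intro _
    rw [L_zero]
    exact frob_bot hp
  | succ k ih =>
    intro hk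
    have ihk := ih (by omega)
    rcases Nat.eq_zero_or_pos k with rfl | hk0
    · intro z hz
      exact ihk z (L_one hz)
    · refine frob_step hp ihk (r k) (r_integral k) (frob_r hp hp2 hk0 (by omega)) (2 * k) ?_ ?_
      · apply Nat.Coprime.mul_left
        · exact (Nat.coprime_primes Nat.prime_two hp).2 (Ne.symm hp2)
        · exact (Nat.Coprime.symm ((Nat.Prime.coprime_iff_not_dvd hp).2
            (fun h => absurd (Nat.le_of_dvd hk0 h) (by omega))))
      · intro z hz hzi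
        rw [L_succ'] at hz
        obtain ⟨a, ha, b, hb, hab, h2a, h2b, -, -⟩ := step hz hzi
        refine ⟨k * (2 * a), mul_mem (_root_.natCast_mem _ k) (mul_mem (_root_.ofNat_mem _ 2) ha),
          (2 * b * r k) * r k, ?_, (isIntegral_nat k).mul h2a, h2b.mul (r_integral k), ?_⟩
        · have : (2 * b * r k) * r k = 2 * b * (k : E) := by rw [mul_assoc, r_sq']
          rw [this]
          exact mul_mem (mul_mem (_root_.ofNat_mem _ 2) hb) (_root_.natCast_mem _ k)
        · rw [hab]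
          have : (2 * b * r k) * r k * r k = 2 * b * (k : E) * r k := by rw [mul_assoc (2 * b), r_sq']
          rw [this]
          push_cast
          ring

/-- the generator `(1 + √d)/2` -/
noncomputable def om (d : ℕ) : E := (1 + r d) / 2

lemma om_sq {d c : ℕ} (h : d = 4 * c + 1) : om d ^ 2 = om d + c := by
  unfold om
  have h1 := r_sq d
  have h2 : ((d : ℕ) : E) = 4 * c + 1 := by rw [h]; push_cast; ring
  rw [h2] at h1
  linear_combination (1/4 : E) * h1

lemma om_integral {d c : ℕ} (h : d = 4 * c + 1) : IsIntegral ℤ (om d) := by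
  refine ⟨X ^ 2 - X - C (c : ℤ), ?_, ?_⟩
  · have : (X ^ 2 - X - C (c : ℤ) : ℤ[X]) = X ^ 2 + (- X - C (c : ℤ)) := by ring
    rw [this]
    apply monic_X_pow_add
    refine lt_of_le_of_lt (degree_sub_le _ _) ?_
    rw [degree_neg, degree_X]
    refine max_lt (by norm_num) (lt_of_le_of_lt degree_C_le (by norm_num))
  · simp [om_sq h]

lemma frob_om {d c : ℕ} (h : d = 4 * c + 1) : IsIntegral ℤ ((om d ^ (2 ^ 2) - om d) / (2 : ℕ)) := by
  obtain ⟨m, hm⟩ := Nat.even_mul_succ_self c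
  have h1 := om_sq h
  have : (om d ^ (2 ^ 2) - om d) / (2 : ℕ) = (m : E) + c * om d := by
    have h2 : om d ^ 4 = (om d + c) ^ 2 := by rw [← h1]; ring
    have h3 : ((c * (c + 1) : ℕ) : E) = ((m + m : ℕ) : E) := by
      rw [← hm]
    push_cast at h3
    norm_num
    rw [h2]
    linear_combination (1/2 : E) * h1 + (1/2 : E) * h3
  rw [this]
  exact (isIntegral_nat m).add ((isIntegral_nat c).mul (om_integral h))

lemma frob_two (s : Finset ℕ) : (∀ d ∈ s, d % 4 = 1) → Frob 2 (fld (s : Set ℕ)) := by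
  classical
  induction s using Finset.induction_on with
  | empty =>
    intro _
    have : fld ((∅ : Finset ℕ) : Set ℕ) = ⊥ := by simp [fld]
    rw [this]
    exact frob_bot Nat.prime_two
  | insert d s hds ih =>
    intro hs
    have ihs := ih (fun e he => hs e (Finset.mem_insert_of_mem he))
    have hd : d % 4 = 1 := hs d (Finset.mem_insert_self _ _)
    obtain ⟨c, hc⟩ : ∃ c, d = 4 * c + 1 := ⟨d / 4, by omega⟩
    refine frob_step Nat.prime_two ihs (om d) (om_integral hc) (frob_om hc) d ?_ ?_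
    · exact (Nat.coprime_two_right).2 (by rw [Nat.odd_iff]; omega)
    · intro z hz hzi
      rw [Finset.coe_insert, fld_insert'] at hz
      obtain ⟨a, ha, b, hb, hab, h2a, h2b, -, -⟩ := step hz hzi
      have hy2 : (2 * b * r d) * r d = 2 * b * (d : E) := by rw [mul_assoc, r_sq']
      have hy1 : d * (a - b) = d * z - ((2 * b * r d) * r d) * om d := by
        rw [hy2, hab]
        unfold om
        ring
      refine ⟨d * (a - b), mul_mem (_root_.natCast_mem _ d) (sub_mem ha hb),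
        (2 * b * r d) * r d, ?_, ?_, h2b.mul (r_integral d), ?_⟩
      · rw [hy2]
        exact mul_mem (mul_mem (_root_.ofNat_mem _ 2) hb) (_root_.natCast_mem _ d)
      · rw [hy1]
        exact ((isIntegral_nat d).mul hzi).sub ((h2b.mul (r_integral d)).mul (om_integral hc))
      · rw [hy1]; ring

/-- the field generated by the square roots of the naturals `≡ 1` mod `4` -/
noncomputable def E1 : IntermediateField ℚ E := fld {d | d % 4 = 1}

lemma frob_E1 : Frob 2 E1 := by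
  intro z hz hzi
  obtain ⟨s, hs, hzs⟩ := exists_finset_fld hz
  exact frob_two s (fun d hd => hs hd) z hzs hzi

/-- If `z ∈ E1` is integral then `(z^4 - z)/2` is integral. -/
lemma frob4 {z : E} (hz : z ∈ E1) (hzi : IsIntegral ℤ z) : IsIntegral ℤ ((z ^ 4 - z) / 2) := by
  simpa using frob_E1 z hz hzi

/-- `O/2` is reduced for `E1`. -/
lemma red {z : E} (hz : z ∈ E1) (hzi : IsIntegral ℤ z) (h : IsIntegral ℤ (z ^ 2 / 2)) :
    IsIntegral ℤ (z / 2) := by
  have h1 := frob4 hz hzi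
  have : z / 2 = z ^ 2 * (z ^ 2 / 2) - (z ^ 4 - z) / 2 := by ring
  rw [this]
  exact ((hzi.pow 2).mul h).sub h1

end noRat

end Pool.Agent.MQ
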