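import Pool.Agent.MQ.North

set_option autoImplicit false

namespace Pool.Agent.MQ

open IntermediateField Polynomial

section noRat

attribute [-instance] DivisionRing.toRatAlgebra

lemma int_of_integral {q : ℚ} (h : IsIntegral ℤ (algebraMap ℚ E q)) : ∃ n : ℤ, q = n := by
  have hq : IsIntegral ℤ q :=
    (isIntegral_algHom_iff ((Algebra.ofId ℚ E).restrictScalars ℤ) (algebraMap ℚ E).injective).1 h
  obtain ⟨n, rfl⟩ := IsIntegrallyClosed.isIntegral_iff.1 hq
  exact ⟨n, by simp⟩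

/-- the field generated by the square roots of the odd naturals -/
noncomputable def Eodd : IntermediateField ℚ E := fld {d | d % 2 = 1}

lemma E1_le_Eodd : E1 ≤ Eodd := fld_mono (fun d (hd : d % 4 = 1) => by
  show d % 2 = 1
  omega)

lemma le_adj (M : IntermediateField ℚ E) (d : ℕ) : M ≤ adj M d := le_sup_left

lemma r_mem_adj (M : IntermediateField ℚ E) (d : ℕ) : r d ∈ adj M d :=
  (le_sup_right : IntermediateField.adjoin ℚ {r d} ≤ adj M d)
    (IntermediateField.subset_adjoin ℚ _ rfl)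

lemma Eodd_le : Eodd ≤ adj E1 3 := by
  unfold Eodd
  rw [fld_le_iff]
  intro d hd
  have hd' : d % 2 = 1 := hd
  by_cases h : d % 4 = 1
  · exact le_adj _ _ (r_mem_fld h)
  · have h3 : r (3 * d) ∈ E1 := r_mem_fld (by show (3 * d) % 4 = 1; omega)
    have : r d = r (3 * d) * r 3 / 3 := by
      rw [r_mul]
      have h5 := r_sq' 3
      push_cast at h5
      linear_combination (-(1/3) * r d) * h5
    rw [this]
    exact div_mem (mul_mem (le_adj _ _ h3) (r_mem_adj _ _)) (_root_.ofNat_mem _ 3)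

lemma top_le : ⊤ ≤ adj Eodd 2 := by
  rw [← fld_univ, fld_le_iff]
  intro d _
  induction d using Nat.strong_induction_on with
  | _ d ih =>
    rcases Nat.even_or_odd' d with ⟨e, he | he⟩
    · rcases Nat.eq_zero_or_pos d with h0 | h0
      · rw [h0, r_zero]; exact zero_mem _
      · rw [he, r_mul]
        exact mul_mem (r_mem_adj _ _) (ih e (by omega) (Set.mem_univ _))
    · exact le_adj _ _ (r_mem_fld (by show d % 2 = 1; omega))

lemma r3_not_mem : r 3 ∉ E1 := by
  intro h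
  have h1 : IsIntegral ℤ (r 3 - 1) := (r_integral 3).sub isIntegral_one
  have h2 : (r 3 - 1) ∈ E1 := sub_mem h (one_mem _)
  have h5 := r_sq 3
  push_cast at h5
  have h3 : IsIntegral ℤ ((r 3 - 1) ^ 2 / 2) := by
    have : (r 3 - 1) ^ 2 / 2 = 2 - r 3 := by linear_combination (1/2) * h5
    rw [this]
    exact isIntegral_two.sub (r_integral 3)
  have h4 := red h2 h1 h3
  have h6 : IsIntegral ℤ (algebraMap ℚ E (3/4)) := by
    have : algebraMap ℚ E (3/4) = (1 - ((r 3 - 1) / 2) ^ 2) ^ 2 := by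
      have e1 : algebraMap ℚ E (3/4) = 3/4 := by simp
      rw [e1]
      have e2 : (1 - ((r 3 - 1) / 2) ^ 2) = r 3 / 2 := by linear_combination (-(1/4)) * h5
      rw [e2]
      linear_combination (-(1/4)) * h5
    rw [this]
    exact (isIntegral_one.sub (h4.pow 2)).pow 2
  obtain ⟨n, hn⟩ := int_of_integral h6
  have h7 : (3 : ℚ) = 4 * n := by linarith
  have h8 : (3 : ℤ) = 4 * n := by exact_mod_cast h7
  omega

/-- an automorphism over `E1` moving `√3` -/
lemma exists_sigma3 : ∃ σ : E ≃ₐ[ℚ] E, (∀ x ∈ E1, σ x = x) ∧ σ (r 3) = - r 3 :=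
  exists_conj E1 3 r3_not_mem

lemma int_add_3 {a b : E} (ha : a ∈ E1) (hb : b ∈ E1) (h : IsIntegral ℤ (a + b * r 3)) :
    IsIntegral ℤ a ∧ IsIntegral ℤ (b * r 3) ∧ IsIntegral ℤ (3 * b) := by
  obtain ⟨σ, hσ1, hσ3⟩ := exists_sigma3
  have h1 : σ (a + b * r 3) = a - b * r 3 := by
    rw [map_add, map_mul, hσ1 a ha, hσ1 b hb, hσ3]; ring
  have h2 : IsIntegral ℤ (a - b * r 3) := by
    rw [← h1]
    exact h.map (σ.toAlgHom.restrictScalars ℤ)
  have h5 := r_sq 3
  push_cast at h5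
  have hu : IsIntegral ℤ (2 * a) := by
    have := h.add h2
    have e : (a + b * r 3) + (a - b * r 3) = 2 * a := by ring
    rwa [e] at this
  have hv : IsIntegral ℤ (2 * b * r 3) := by
    have := h.sub h2
    have e : (a + b * r 3) - (a - b * r 3) = 2 * b * r 3 := by ring
    rwa [e] at this
  have hq : IsIntegral ℤ (6 * b) := by
    have := hv.mul (r_integral 3)
    have e : 2 * b * r 3 * r 3 = 6 * b := by linear_combination (2 * b) * h5
    rwa [e] at this
  have hN : IsIntegral ℤ (a ^ 2 - 3 * b ^ 2) := by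
    have := h.mul h2
    have e : (a + b * r 3) * (a - b * r 3) = a ^ 2 - 3 * b ^ 2 := by linear_combination (- b ^ 2) * h5
    rwa [e] at this
  have hum : 2 * a ∈ E1 := mul_mem (_root_.ofNat_mem _ 2) ha
  have hqm : 6 * b ∈ E1 := mul_mem (_root_.ofNat_mem _ 6) hb
  have ht : IsIntegral ℤ ((2 * a + 6 * b) / 2) := by
    refine red (add_mem hum hqm) (hu.add hq) ?_
    have e : (2 * a + 6 * b) ^ 2 / 2 = 2 * (2 * a) ^ 2 + (2 * a) * (6 * b) - (6 : ℕ) * (a ^ 2 - 3 * b ^ 2) := by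
      push_cast; ring
    rw [e]
    exact ((isIntegral_two.mul (hu.pow 2)).add (hu.mul hq)).sub ((isIntegral_nat 6).mul hN)
  have ha' : IsIntegral ℤ (2 * a / 2) := by
    refine red hum hu ?_
    have e : (2 * a) ^ 2 / 2 = (2 * a) * ((2 * a + 6 * b) / 2)
        - (((2 * a + 6 * b) / 2) ^ 2 - (2 * a) ^ 2 + (3 : ℕ) * (a ^ 2 - 3 * b ^ 2)) := by
      push_cast; ring
    rw [e]
    exact (hu.mul ht).sub (((ht.pow 2).sub (hu.pow 2)).add ((isIntegral_nat 3).mul hN))
  have ha2 : IsIntegral ℤ a := by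
    have e : 2 * a / 2 = a := by ring
    rwa [e] at ha'
  have hb2 : IsIntegral ℤ (b * r 3) := by
    have e : b * r 3 = (a + b * r 3) - a := by ring
    rw [e]
    exact h.sub ha2
  refine ⟨ha2, hb2, ?_⟩
  have e : 3 * b = (b * r 3) * r 3 := by linear_combination (-b) * h5
  rw [e]
  exact hb2.mul (r_integral 3)

lemma uniq_3 {a b : E} (ha : a ∈ E1) (hb : b ∈ E1) (h : a + b * r 3 = 0) : a = 0 ∧ b = 0 := by
  by_cases hb0 : b = 0
  · subst hb0
    refine ⟨by simpa using h, rfl⟩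
  · exfalso
    apply r3_not_mem
    have : r 3 = - a / b := by
      field_simp
      linear_combination h
    rw [this]
    exact div_mem (neg_mem ha) hb

lemma r2_not_mem : r 2 ∉ Eodd := by
  intro h
  obtain ⟨a, ha, b, hb, hab⟩ := mem_adj (Eodd_le h)
  obtain ⟨σ, hσ1, hσ3⟩ := exists_sigma3
  have h1 : σ (r 2) = a - b * r 3 := by
    rw [hab, map_add, map_mul, hσ1 a ha, hσ1 b hb, hσ3]; ring
  have h22 := r_sq 2
  push_cast at h22
  rcases map_r_self σ.toAlgHom 2 with h2 | h2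
  · -- r 2 = a ∈ E1
    have h3 : σ (r 2) = r 2 := h2
    rw [h1] at h3
    have h4 : r 2 = a := by linear_combination (1/2) * hab + (1/2) * (-1) * h3
    have h5 : r 2 ∈ E1 := by rw [h4]; exact ha
    have h6 : IsIntegral ℤ (r 2 ^ 2 / 2) := by
      have : r 2 ^ 2 / 2 = 1 := by linear_combination (1/2) * h22
      rw [this]; exact isIntegral_one
    have h7 := (red h5 (r_integral 2) h6).pow 2
    have h8 : IsIntegral ℤ (algebraMap ℚ E (1/2)) := by
      have : algebraMap ℚ E (1/2) = (r 2 / 2) ^ 2 := by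
        have e1 : algebraMap ℚ E (1/2) = 1/2 := by simp
        rw [e1]
        linear_combination (-(1/4)) * h22
      rw [this]; exact h7
    obtain ⟨n, hn⟩ := int_of_integral h8
    have h9 : (1 : ℚ) = 2 * n := by linarith
    have h10 : (1 : ℤ) = 2 * n := by exact_mod_cast h9
    omega
  · have h3 : σ (r 2) = - r 2 := h2
    rw [h1] at h3
    have h4 : r 2 = b * r 3 := by linear_combination (1/2) * hab + (1/2) * h3
    have h33 := r_sq 3
    push_cast at h33
    have h5 : r 6 ∈ E1 := by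
      have : r 6 = 3 * b := by
        have : r 6 = r 2 * r 3 := by rw [← r_mul]
        rw [this, h4]
        linear_combination b * h33
      rw [this]
      exact mul_mem (_root_.ofNat_mem _ 3) hb
    have h66 := r_sq 6
    push_cast at h66
    have h6 : IsIntegral ℤ (r 6 ^ 2 / 2) := by
      have : r 6 ^ 2 / 2 = (3 : ℕ) := by push_cast; linear_combination (1/2) * h66
      rw [this]; exact isIntegral_nat 3
    have h7 := (red h5 (r_integral 6) h6).pow 2
    have h8 : IsIntegral ℤ (algebraMap ℚ E (3/2)) := by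
      have : algebraMap ℚ E (3/2) = (r 6 / 2) ^ 2 := by
        have e1 : algebraMap ℚ E (3/2) = 3/2 := by simp
        rw [e1]
        linear_combination (-(1/4)) * h66
      rw [this]; exact h7
    obtain ⟨n, hn⟩ := int_of_integral h8
    have h9 : (3 : ℚ) = 2 * n := by linarith
    have h10 : (3 : ℤ) = 2 * n := by exact_mod_cast h9
    omega

/-- an automorphism over `Eodd` moving `√2` -/
lemma exists_sigma2 : ∃ σ : E ≃ₐ[ℚ] E, (∀ x ∈ Eodd, σ x = x) ∧ σ (r 2) = - r 2 :=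
  exists_conj Eodd 2 r2_not_mem

lemma split_odd {y : E} (hy : y ∈ Eodd) (hi : IsIntegral ℤ y) : ∃ y0 ∈ E1, ∃ y1 ∈ E1,
    y = y0 + y1 * r 3 ∧ IsIntegral ℤ y0 ∧ IsIntegral ℤ (y1 * r 3) ∧ IsIntegral ℤ (3 * y1) := by
  obtain ⟨a, ha, b, hb, rfl⟩ := mem_adj (Eodd_le hy)
  exact ⟨a, ha, b, hb, rfl, int_add_3 ha hb hi⟩

lemma int_add_2 {A B : E} (hA : A ∈ Eodd) (hB : B ∈ Eodd) (h : IsIntegral ℤ (A + B * r 2)) :
    IsIntegral ℤ A := by
  obtain ⟨σ, hσ1, hσ2⟩ := exists_sigma2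
  have h1 : σ (A + B * r 2) = A - B * r 2 := by
    rw [map_add, map_mul, hσ1 A hA, hσ1 B hB, hσ2]; ring
  have h2 : IsIntegral ℤ (A - B * r 2) := by
    rw [← h1]
    exact h.map (σ.toAlgHom.restrictScalars ℤ)
  have h22 := r_sq 2
  push_cast at h22
  have h33 := r_sq 3
  push_cast at h33
  have hU : IsIntegral ℤ (2 * A) := by
    have := h.add h2
    have e : (A + B * r 2) + (A - B * r 2) = 2 * A := by ring
    rwa [e] at this
  have hW : IsIntegral ℤ (4 * B) := by
    have := (h.sub h2).mul (r_integral 2)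
    have e : ((A + B * r 2) - (A - B * r 2)) * r 2 = 4 * B := by linear_combination (2 * B) * h22
    rwa [e] at this
  have hN : IsIntegral ℤ (A ^ 2 - 2 * B ^ 2) := by
    have := h.mul h2
    have e : (A + B * r 2) * (A - B * r 2) = A ^ 2 - 2 * B ^ 2 := by linear_combination (- B ^ 2) * h22
    rwa [e] at this
  obtain ⟨u0, hu0, u1, hu1, hUe, iu0, iu1, iq⟩ := split_odd (mul_mem (_root_.ofNat_mem _ 2) hA) hU
  obtain ⟨W0, hW0, W1, hW1, hWe, iW0, iW1, iQ⟩ := split_odd (mul_mem (_root_.ofNat_mem _ 4) hB) hW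
  obtain ⟨N0, hN0, N1, hN1, hNe, iN0, iN1, iP⟩ := split_odd
    (sub_mem (pow_mem hA 2) (mul_mem (_root_.ofNat_mem _ 2) (pow_mem hB 2))) hN
  have n2 : (2 : E) ∈ E1 := _root_.ofNat_mem _ 2
  have n3 : (3 : E) ∈ E1 := _root_.ofNat_mem _ 3
  have n4 : (4 : E) ∈ E1 := _root_.ofNat_mem _ 4
  have n8 : (8 : E) ∈ E1 := _root_.ofNat_mem _ 8
  have hrel : (2 * (u0 ^ 2 + 3 * u1 ^ 2) - (W0 ^ 2 + 3 * W1 ^ 2) - 8 * N0)
      + (4 * u0 * u1 - 2 * W0 * W1 - 8 * N1) * r 3 = 0 := by
    have e1 : 2 * (2 * A) ^ 2 - (4 * B) ^ 2 = 8 * (A ^ 2 - 2 * B ^ 2) := by ring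
    rw [hUe, hWe, hNe] at e1
    linear_combination e1 - (2 * u1 ^ 2 - W1 ^ 2) * h33
  obtain ⟨r1, r2'⟩ := uniq_3
    (sub_mem (sub_mem (mul_mem n2 (add_mem (pow_mem hu0 2) (mul_mem n3 (pow_mem hu1 2))))
      (add_mem (pow_mem hW0 2) (mul_mem n3 (pow_mem hW1 2)))) (mul_mem n8 hN0))
    (sub_mem (sub_mem (mul_mem (mul_mem n4 hu0) hu1) (mul_mem (mul_mem n2 hW0) hW1)) (mul_mem n8 hN1))
    hrel
  -- abbreviations
  set q := 3 * u1 with hq
  set Q := 3 * W1 with hQ
  set P := 3 * N1 with hP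
  have hqm : q ∈ E1 := mul_mem n3 hu1
  have hQm : Q ∈ E1 := mul_mem n3 hW1
  have R1 : 3 * W0 ^ 2 + Q ^ 2 = 2 * (3 * u0 ^ 2 + q ^ 2 - 12 * N0) := by
    rw [hq, hQ]; linear_combination (-3) * r1
  have R2 : W0 * Q = 2 * (u0 * q - 2 * P) := by
    rw [hq, hQ, hP]; linear_combination (-(3/2)) * r2'
  have it : IsIntegral ℤ ((W0 + Q) / 2) := by
    refine red (add_mem hW0 hQm) (iW0.add iQ) ?_
    have e : (W0 + Q) ^ 2 / 2 = ((3 : ℕ) * u0 ^ 2 + q ^ 2 - (12 : ℕ) * N0) - W0 ^ 2 + W0 * Q := by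
      push_cast; linear_combination (1/2) * R1
    rw [e]
    exact (((((isIntegral_nat 3).mul (iu0.pow 2)).add (iq.pow 2)).sub ((isIntegral_nat 12).mul iN0)).sub
      (iW0.pow 2)).add (iW0.mul iQ)
  have iw : IsIntegral ℤ (W0 / 2) := by
    refine red hW0 iW0 ?_
    have e : W0 ^ 2 / 2 = W0 * ((W0 + Q) / 2) - (u0 * q - 2 * P) := by
      linear_combination (-(1/2)) * R2
    rw [e]
    exact (iW0.mul it).sub ((iu0.mul iq).sub (isIntegral_two.mul iP))
  have iq' : IsIntegral ℤ (Q / 2) := by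
    have e : Q / 2 = (W0 + Q) / 2 - W0 / 2 := by ring
    rw [e]; exact it.sub iw
  have it' : IsIntegral ℤ ((u0 + q) / 2) := by
    refine red (add_mem hu0 hqm) (iu0.add iq) ?_
    have e : (u0 + q) ^ 2 / 2 = (3 : ℕ) * (W0 / 2) ^ 2 + (Q / 2) ^ 2 + (6 : ℕ) * N0 - u0 ^ 2 + u0 * q := by
      push_cast; linear_combination (-(1/4)) * R1
    rw [e]
    exact ((((((isIntegral_nat 3).mul (iw.pow 2)).add (iq'.pow 2)).add ((isIntegral_nat 6).mul iN0))).sub
      (iu0.pow 2)).add (iu0.mul iq)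
  have ia0 : IsIntegral ℤ (u0 / 2) := by
    refine red hu0 iu0 ?_
    have e : u0 ^ 2 / 2 = u0 * ((u0 + q) / 2) - ((W0 / 2) * (Q / 2) + P) := by
      linear_combination (1/4) * R2
    rw [e]
    exact (iu0.mul it').sub ((iw.mul iq').add iP)
  have ib0 : IsIntegral ℤ (q / 2) := by
    have e : q / 2 = (u0 + q) / 2 - u0 / 2 := by ring
    rw [e]; exact it'.sub ia0
  have ic : IsIntegral ℤ (u1 / 2 * r 3) := by
    refine bezout (N := 3) (p := 2) (by norm_num) ?_ ?_
    · have e : ((3 : ℕ) : E) * (u1 / 2 * r 3) = q / 2 * r 3 := by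
        rw [hq]; push_cast; ring
      rw [e]
      exact ib0.mul (r_integral 3)
    · have e : ((2 : ℕ) : E) * (u1 / 2 * r 3) = u1 * r 3 := by push_cast; ring
      rw [e]
      exact iu1
  have e : A = u0 / 2 + u1 / 2 * r 3 := by linear_combination (1/2) * hUe
  rw [e]
  exact ia0.add ic

end noRat

end Pool.Agent.MQ
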