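import Pool.Agent.MQ.Grade

set_option autoImplicit false

namespace Pool.Agent.MQ

open IntermediateField Polynomial

section noRat

attribute [-instance] DivisionRing.toRatAlgebra

/-- `α` is a sum of `n` squares of integral elements of `K` -/
def SoS (K : IntermediateField ℚ E) (n : ℕ) (α : E) : Prop :=
  ∃ b : Fin n → E, (∀ i, b i ∈ K ∧ IsIntegral ℤ (b i)) ∧ α = ∑ i, (b i) ^ 2

lemma exists_near_min {A : Set E} (hA : A.Nonempty) : ∃ x ∈ A, ∀ y ∈ A, T x < T y + 1 := by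
  obtain ⟨x, hx, hmin⟩ := (measure (fun x : E => ⌊T x⌋₊)).wf.has_min A hA
  refine ⟨x, hx, fun y hy => ?_⟩
  have h1 : ¬ (⌊T y⌋₊ < ⌊T x⌋₊) := hmin y hy
  push Not at h1
  have h2 : T x < ⌊T x⌋₊ + 1 := Nat.lt_floor_add_one _
  have h3 : (⌊T y⌋₊ : ℚ) ≤ T y := Nat.floor_le (T_nonneg y)
  have h4 : ((⌊T x⌋₊ : ℕ) : ℚ) ≤ ((⌊T y⌋₊ : ℕ) : ℚ) := by exact_mod_cast h1
  linarith

lemma finite_roots (a b c : E) (h : ¬ (a = 0 ∧ b = 0 ∧ c = 0)) :
    {x : E | a * x ^ 2 + b * x + c = 0}.Finite := by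
  classical
  have hp : (C a * X ^ 2 + C b * X + C c : E[X]) ≠ 0 := by
    intro h0
    apply h
    have h2 := congrArg (fun p : E[X] => p.coeff 2) h0
    have h1 := congrArg (fun p : E[X] => p.coeff 1) h0
    have h00 := congrArg (fun p : E[X] => p.coeff 0) h0
    simp [coeff_X, coeff_C] at h2 h1 h00
    exact ⟨h2, h1, h00⟩
  refine Set.Finite.subset (C a * X ^ 2 + C b * X + C c : E[X]).roots.toFinset.finite_toSet ?_
  intro x hx
  simp only [Finset.mem_coe, Multiset.mem_toFinset]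
  rw [mem_roots hp]
  simpa using hx

lemma map_map_self (σ : E →ₐ[ℚ] E) (x : E) : σ (σ x) = x := by
  have hx : x ∈ IntermediateField.adjoin ℚ (r '' Set.univ) := by
    have : x ∈ fld Set.univ := by rw [fld_univ]; trivial
    exact this
  induction hx using IntermediateField.adjoin_induction with
  | mem y hy =>
    obtain ⟨n, -, rfl⟩ := hy
    rcases map_r_self σ n with h | h
    · rw [h, h]
    · rw [h, map_neg, h, neg_neg]
  | algebraMap q => simp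
  | add y z _ _ h1 h2 => rw [map_add, map_add, h1, h2]
  | inv y _ h => rw [map_inv₀, map_inv₀, h]
  | mul y z _ _ h1 h2 => rw [map_mul, map_mul, h1, h2]

lemma tr_sum_sq {n : ℕ} (b : Fin n → E) : tr (∑ i, (b i) ^ 2) = ∑ i, T (b i) := by
  rw [map_sum]; rfl

lemma base_case (K : IntermediateField ℚ E) : ∃ α : E, ∃ m : ℕ, SoS K m α ∧ ¬ SoS K 0 α := by
  refine ⟨1, 1, ⟨fun _ => 1, fun _ => ⟨one_mem _, isIntegral_one⟩, by simp⟩, ?_⟩
  rintro ⟨b, -, hb⟩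
  simp at hb

lemma SoS.add_sq {K : IntermediateField ℚ E} {m : ℕ} {α x : E} (h : SoS K m α) (hx : x ∈ K)
    (hi : IsIntegral ℤ x) : SoS K (m + 1) (α + x ^ 2) := by
  obtain ⟨b, hb, rfl⟩ := h
  refine ⟨Fin.snoc b x, ?_, ?_⟩
  · intro i
    refine Fin.lastCases ?_ ?_ i
    · simpa using ⟨hx, hi⟩
    · intro j
      simpa using hb j
  · rw [Fin.sum_univ_castSucc]
    simp

/-- finiteness of the set of possible values of `κ` -/
lemma finite_kappa (n : ℕ) (α0 : E) (C : ℚ) :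
    {κ : E | ∃ c : Fin n → E, (∀ i, IsIntegral ℤ (c i) ∧ T (c i) ≤ C) ∧ κ = α0 - ∑ i, (c i) ^ 2}.Finite := by
  have h : (Set.pi Set.univ (fun _ : Fin n => {x : E | IsIntegral ℤ x ∧ T x ≤ C})).Finite :=
    Set.Finite.pi (fun _ => finite_north C)
  refine Set.Finite.subset (h.image (fun c : Fin n → E => α0 - ∑ i, (c i) ^ 2)) ?_
  rintro κ ⟨c, hc, rfl⟩
  exact ⟨c, fun i _ => hc i, rfl⟩

/-- The heart of the graded case. -/
lemma caseI_core (K : IntermediateField ℚ E) (τ : E →ₐ[ℚ] E)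
    (hτK : ∀ x ∈ K, τ x ∈ K)
    (hint : ∀ x ∈ K, IsIntegral ℤ x → IsIntegral ℤ ((x + τ x) / 2))
    (n : ℕ) (α0 : E) (hα0 : ¬ SoS K n α0) (k : ℕ) (hα0F : α0 ∈ L k)
    (x δ : E) (hxF : x ∉ L k) (hδF : δ ∈ L k)
    (hδ0 : δ ≠ 0)
    (hpar : (τ x = x ∧ τ δ = - δ) ∨ (τ x = - x ∧ τ δ = δ))
    (hmin : ∀ y ∈ K, IsIntegral ℤ y → y ∉ L k → (τ y = y ∨ τ y = - y) → T x < T y + 1)
    (C1 : ℚ) (hC1 : tr α0 + T δ + 1 ≤ C1)
    (hsmall : ∀ y : E, IsIntegral ℤ y → T y ≤ C1 → y ∈ L k)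
    (hX0 : ∀ κ s : E, (∃ c : Fin n → E, (∀ i, IsIntegral ℤ (c i) ∧ T (c i) ≤ C1) ∧
        κ = α0 - ∑ i, (c i) ^ 2) → IsIntegral ℤ s → T s ≤ C1 →
        4 * (δ ^ 2 - s ^ 2) * x ^ 2 + 4 * δ * ((κ - τ κ) / 2) * x +
          (((κ - τ κ) / 2) ^ 2 + 4 * s ^ 4 - 4 * s ^ 2 * δ ^ 2 - 4 * s ^ 2 * ((κ + τ κ) / 2)) = 0 →
        4 * (δ ^ 2 - s ^ 2) = 0 ∧ 4 * δ * ((κ - τ κ) / 2) = 0 ∧
          (((κ - τ κ) / 2) ^ 2 + 4 * s ^ 4 - 4 * s ^ 2 * δ ^ 2 - 4 * s ^ 2 * ((κ + τ κ) / 2)) = 0) :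
    ¬ SoS K (n + 1) (α0 + (x + δ) ^ 2) := by
  rintro ⟨b, hb, hsum⟩
  -- `τ` acts on squares
  have hτsq : (τ (x + δ)) ^ 2 = (x - δ) ^ 2 := by
    rcases hpar with ⟨h1, h2⟩ | ⟨h1, h2⟩
    · rw [map_add, h1, h2]; ring
    · rw [map_add, h1, h2]; ring
  have htrxδ : tr (x * δ) = 0 := by
    have h1 : τ (x * δ) = - (x * δ) := by
      rcases hpar with ⟨h1, h2⟩ | ⟨h1, h2⟩ <;> rw [map_mul, h1, h2] <;> ring
    have h2 := tr_map τ (x * δ)
    rw [h1, map_neg] at h2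
    linarith
  have htr : tr (α0 + (x + δ) ^ 2) = tr α0 + T x + T δ := by
    have : α0 + (x + δ) ^ 2 = α0 + x ^ 2 + δ ^ 2 + (x * δ + x * δ) := by ring
    rw [this, map_add, map_add, map_add, map_add, htrxδ]
    unfold T
    ring
  have hxδ : x * δ ∉ L k := by
    intro h
    apply hxF
    have : x = x * δ / δ := by field_simp
    rw [this]
    exact div_mem h hδF
  -- some `b i` is not in `L k`
  have hex : ∃ i0, b i0 ∉ L k := by
    by_contra hcon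
    push Not at hcon
    have h1 : α0 + (x + δ) ^ 2 ∈ L k := by
      rw [hsum]
      exact sum_mem (fun i _ => pow_mem (hcon i) 2)
    have h2 : (x + δ) ^ 2 ∈ L k := by
      have : (x + δ) ^ 2 = (α0 + (x + δ) ^ 2) - α0 := by ring
      rw [this]
      exact sub_mem h1 hα0F
    have h3 : (x - δ) ^ 2 ∈ L k := by
      rw [← hτsq, ← map_pow]
      exact L_stable τ h2
    apply hxδ
    have : x * δ = ((x + δ) ^ 2 - (x - δ) ^ 2) / 4 := by ring
    rw [this]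
    exact div_mem (sub_mem h2 h3) (_root_.ofNat_mem _ 4)
  obtain ⟨i0, hi0⟩ := hex
  set Z := b i0 with hZ
  have hZK : Z ∈ K := (hb i0).1
  have hZi : IsIntegral ℤ Z := (hb i0).2
  -- decomposition of `Z`
  set Zp := (Z + τ Z) / 2 with hZp
  set Zm := (Z - τ Z) / 2 with hZm
  have hZpi : IsIntegral ℤ Zp := hint Z hZK hZi
  have hZmi : IsIntegral ℤ Zm := by
    have : Zm = Z - Zp := by rw [hZm, hZp]; ring
    rw [this]
    exact hZi.sub hZpi
  have hZpK : Zp ∈ K := div_mem (add_mem hZK (hτK Z hZK)) (_root_.ofNat_mem _ 2)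
  have hZmK : Zm ∈ K := div_mem (sub_mem hZK (hτK Z hZK)) (_root_.ofNat_mem _ 2)
  have hττ : τ (τ Z) = Z := map_map_self τ Z
  have hτZp : τ Zp = Zp := by
    rw [hZp, map_div₀, map_add, hττ, map_ofNat]; ring
  have hτZm : τ Zm = - Zm := by
    rw [hZm, map_div₀, map_sub, hττ, map_ofNat]; ring
  have hZsum : Z = Zp + Zm := by rw [hZp, hZm]; ring
  have hτZ : τ Z = Zp - Zm := by rw [hZp, hZm]; ring
  have hTZ : T Z = T Zp + T Zm := by
    have h1 : tr (Zp * Zm) = 0 := by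
      have h2 := tr_map τ (Zp * Zm)
      rw [map_mul, hτZp, hτZm] at h2
      have h3 : Zp * - Zm = - (Zp * Zm) := by ring
      rw [h3, map_neg] at h2
      linarith
    have h4 : Z ^ 2 = Zp ^ 2 + Zm ^ 2 + (Zp * Zm + Zp * Zm) := by rw [hZsum]; ring
    unfold T
    rw [h4, map_add, map_add, map_add, h1]
    ring
  -- choose the large part `l` and the small part `s`
  obtain ⟨l, s, hl, hs, hli, hlF, hls1, hls2, hTls, hlpar⟩ : ∃ l s : E, l ∈ K ∧ IsIntegral ℤ s ∧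
      IsIntegral ℤ l ∧ l ∉ L k ∧ Z ^ 2 = (l + s) ^ 2 ∧ (τ Z) ^ 2 = (l - s) ^ 2 ∧
      T Z = T l + T s ∧ (τ l = l ∨ τ l = - l) := by
    by_cases h : Zp ∈ L k
    · refine ⟨Zm, Zp, hZmK, hZpi, hZmi, ?_, ?_, ?_, ?_, Or.inr hτZm⟩
      · intro h'
        apply hi0
        rw [hZsum]
        exact add_mem h h'
      · rw [hZsum]; ring
      · rw [hτZ]; ring
      · rw [hTZ]; ring
    · refine ⟨Zp, Zm, hZpK, hZmi, hZpi, h, ?_, ?_, hTZ, Or.inl hτZp⟩
      · rw [hZsum]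
      · rw [hτZ]
  have hTl := hmin l hl hli hlF hlpar
  -- split the sum
  have hsum2 : α0 + (x + δ) ^ 2 = Z ^ 2 + ∑ j : Fin n, (b (i0.succAbove j)) ^ 2 := by
    rw [hsum, Fin.sum_univ_succAbove _ i0]
  have htr2 : tr α0 + T x + T δ = T Z + ∑ j : Fin n, T (b (i0.succAbove j)) := by
    rw [← htr, hsum2, map_add, tr_sum_sq]
    rfl
  have hnn : ∀ j : Fin n, 0 ≤ T (b (i0.succAbove j)) := fun j => T_nonneg _
  have hsumnn : 0 ≤ ∑ j : Fin n, T (b (i0.succAbove j)) := Finset.sum_nonneg (fun j _ => hnn j)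
  have hTs0 := T_nonneg s
  have hTs : T s ≤ C1 := by linarith
  have hTc : ∀ j : Fin n, T (b (i0.succAbove j)) ≤ C1 := by
    intro j
    have : T (b (i0.succAbove j)) ≤ ∑ j : Fin n, T (b (i0.succAbove j)) :=
      Finset.single_le_sum (fun j _ => hnn j) (Finset.mem_univ j)
    linarith
  set κ := α0 - ∑ j : Fin n, (b (i0.succAbove j)) ^ 2 with hκ
  have hκF : κ ∈ L k := by
    refine sub_mem hα0F (sum_mem (fun j _ => pow_mem ?_ 2))
    exact hsmall _ (hb _).2 (hTc j)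
  have hZκ : (l + s) ^ 2 = (x + δ) ^ 2 + κ := by
    rw [← hls1, hκ]
    linear_combination - hsum2
  have hZκ' : (l - s) ^ 2 = (x - δ) ^ 2 + τ κ := by
    rw [← hls2, ← hτsq, ← map_pow, ← map_pow, ← map_add, hls1, hZκ]
  have hsF : s ∈ L k := hsmall s hs hTs
  have hτκF : τ κ ∈ L k := L_stable τ hκF
  have hs0 : s ≠ 0 := by
    intro h0
    rw [h0] at hZκ hZκ'
    apply hxδ
    have : x * δ = (τ κ - κ) / 4 := by linear_combination (1/4) * (hZκ' - hZκ)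
    rw [this]
    exact div_mem (sub_mem hτκF hκF) (_root_.ofNat_mem _ 4)
  obtain ⟨q1, q2, q3⟩ := hX0 κ s ⟨fun j => b (i0.succAbove j), fun j => ⟨(hb _).2, hTc j⟩, rfl⟩ hs hTs
    (by
      have e1 : 2 * l * s = 2 * x * δ + (κ - τ κ) / 2 := by
        linear_combination (1/2) * (hZκ - hZκ')
      have e2 : l ^ 2 + s ^ 2 = x ^ 2 + δ ^ 2 + (κ + τ κ) / 2 := by
        linear_combination (1/2) * (hZκ + hZκ')
      linear_combination (-(2 * l * s + (2 * x * δ + (κ - τ κ) / 2))) * e1 + (4 * s ^ 2) * e2)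
  have hkm : (κ - τ κ) / 2 = 0 := by
    rcases mul_eq_zero.1 q2 with h | h
    · exfalso
      rcases mul_eq_zero.1 h with h | h
      · norm_num at h
      · exact hδ0 h
    · exact h
  have hkp : (κ + τ κ) / 2 = 0 := by
    have h1 : 4 * s ^ 2 * ((κ + τ κ) / 2) = 0 := by
      rw [hkm] at q3
      linear_combination - q3 - s ^ 2 * q1
    rcases mul_eq_zero.1 h1 with h | h
    · exfalso
      rcases mul_eq_zero.1 h with h | h
      · norm_num at h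
      · exact hs0 (pow_eq_zero_iff (two_ne_zero) |>.1 h)
    · exact h
  have hκ0 : κ = 0 := by linear_combination hkm + hkp
  apply hα0
  refine ⟨fun j => b (i0.succAbove j), fun j => hb _, ?_⟩
  rw [hκ] at hκ0
  linear_combination hκ0

/-- the finiteness of the set of bad `x` in the graded case -/
lemma finite_X0 (τ : E →ₐ[ℚ] E) (n : ℕ) (α0 δ : E) (C1 : ℚ) :
    {x : E | ∃ κ s : E, (∃ c : Fin n → E, (∀ i, IsIntegral ℤ (c i) ∧ T (c i) ≤ C1) ∧
        κ = α0 - ∑ i, (c i) ^ 2) ∧ (IsIntegral ℤ s ∧ T s ≤ C1) ∧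
        4 * (δ ^ 2 - s ^ 2) * x ^ 2 + 4 * δ * ((κ - τ κ) / 2) * x +
          (((κ - τ κ) / 2) ^ 2 + 4 * s ^ 4 - 4 * s ^ 2 * δ ^ 2 - 4 * s ^ 2 * ((κ + τ κ) / 2)) = 0 ∧
        ¬ (4 * (δ ^ 2 - s ^ 2) = 0 ∧ 4 * δ * ((κ - τ κ) / 2) = 0 ∧
          (((κ - τ κ) / 2) ^ 2 + 4 * s ^ 4 - 4 * s ^ 2 * δ ^ 2 - 4 * s ^ 2 * ((κ + τ κ) / 2)) = 0)}.Finite := by
  have h1 := finite_kappa n α0 C1
  have h2 := finite_north C1
  have h3 : (⋃ κ ∈ {κ : E | ∃ c : Fin n → E, (∀ i, IsIntegral ℤ (c i) ∧ T (c i) ≤ C1) ∧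
      κ = α0 - ∑ i, (c i) ^ 2}, ⋃ s ∈ {x : E | IsIntegral ℤ x ∧ T x ≤ C1},
      {x : E | 4 * (δ ^ 2 - s ^ 2) * x ^ 2 + 4 * δ * ((κ - τ κ) / 2) * x +
          (((κ - τ κ) / 2) ^ 2 + 4 * s ^ 4 - 4 * s ^ 2 * δ ^ 2 - 4 * s ^ 2 * ((κ + τ κ) / 2)) = 0 ∧
        ¬ (4 * (δ ^ 2 - s ^ 2) = 0 ∧ 4 * δ * ((κ - τ κ) / 2) = 0 ∧
          (((κ - τ κ) / 2) ^ 2 + 4 * s ^ 4 - 4 * s ^ 2 * δ ^ 2 - 4 * s ^ 2 * ((κ + τ κ) / 2)) = 0)}).Finite := by
    refine h1.biUnion (fun κ _ => h2.biUnion (fun s _ => ?_))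
    by_cases h : (4 * (δ ^ 2 - s ^ 2) = 0 ∧ 4 * δ * ((κ - τ κ) / 2) = 0 ∧
          (((κ - τ κ) / 2) ^ 2 + 4 * s ^ 4 - 4 * s ^ 2 * δ ^ 2 - 4 * s ^ 2 * ((κ + τ κ) / 2)) = 0)
    · refine Set.Finite.subset Set.finite_empty ?_
      rintro x ⟨-, hx⟩
      exact hx h
    · refine Set.Finite.subset (finite_roots _ _ _ h) ?_
      rintro x ⟨hx, -⟩
      exact hx
  refine Set.Finite.subset h3 ?_
  rintro x ⟨κ, s, hκ, hs, hx, hx2⟩
  simp only [Set.mem_iUnion]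
  exact ⟨κ, hκ, s, hs, hx, hx2⟩

lemma exists_bound {A : Set E} (hA : A.Finite) : ∃ C : ℚ, ∀ x ∈ A, T x ≤ C := by
  obtain ⟨C, hC⟩ := (hA.image T).bddAbove
  exact ⟨C, fun x hx => hC ⟨x, hx, rfl⟩⟩

theorem caseI (K : IntermediateField ℚ E)
    (hinf : ∀ k, ∃ x ∈ K, IsIntegral ℤ x ∧ x ∉ L k)
    (τ : E →ₐ[ℚ] E) (hτK : ∀ x ∈ K, τ x ∈ K)
    (hint : ∀ x ∈ K, IsIntegral ℤ x → IsIntegral ℤ ((x + τ x) / 2))
    (δ : E) (hδK : δ ∈ K) (hδi : IsIntegral ℤ δ) (hδ0 : δ ≠ 0) (hδτ : τ δ = - δ) :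
    ∀ n : ℕ, ∃ α : E, ∃ m : ℕ, SoS K m α ∧ ¬ SoS K n α := by
  intro n
  induction n with
  | zero => exact base_case K
  | succ n ih =>
    obtain ⟨α0, m, hm, hn⟩ := ih
    set C1 : ℚ := tr α0 + T 1 + T δ + 1 with hC1
    obtain ⟨D1, hD1⟩ := exists_bound (finite_X0 τ n α0 1 C1)
    obtain ⟨D2, hD2⟩ := exists_bound (finite_X0 τ n α0 δ C1)
    obtain ⟨k1, hk1⟩ := north C1
    obtain ⟨k2, hk2⟩ := north D1
    obtain ⟨k3, hk3⟩ := north D2
    obtain ⟨k4, hk4⟩ := exists_L α0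
    obtain ⟨k5, hk5⟩ := exists_L δ
    obtain ⟨k, g1, g2, g3, g4, g5⟩ : ∃ k, k1 ≤ k ∧ k2 ≤ k ∧ k3 ≤ k ∧ k4 ≤ k ∧ k5 ≤ k :=
      ⟨k1 + k2 + k3 + k4 + k5, by omega, by omega, by omega, by omega, by omega⟩
    have hα0F : α0 ∈ L k := L_mono g4 hk4
    have hδF : δ ∈ L k := L_mono g5 hk5
    have hT1 := T_nonneg 1
    have hTδ := T_nonneg δ
    -- the set of candidates
    have hne : {y : E | y ∈ K ∧ IsIntegral ℤ y ∧ y ∉ L k ∧ (τ y = y ∨ τ y = - y)}.Nonempty := by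
      obtain ⟨x, hxK, hxi, hxF⟩ := hinf k
      have hττ : τ (τ x) = x := map_map_self τ x
      have hp : IsIntegral ℤ ((x + τ x) / 2) := hint x hxK hxi
      by_cases h : (x + τ x) / 2 ∈ L k
      · refine ⟨(x - τ x) / 2, div_mem (sub_mem hxK (hτK x hxK)) (_root_.ofNat_mem _ 2), ?_, ?_, Or.inr ?_⟩
        · have : (x - τ x) / 2 = x - (x + τ x) / 2 := by ring
          rw [this]
          exact hxi.sub hp
        · intro h'
          apply hxF
          have : x = (x + τ x) / 2 + (x - τ x) / 2 := by ring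
          rw [this]
          exact add_mem h h'
        · rw [map_div₀, map_sub, hττ, map_ofNat]; ring
      · refine ⟨(x + τ x) / 2, div_mem (add_mem hxK (hτK x hxK)) (_root_.ofNat_mem _ 2), hp, h, Or.inl ?_⟩
        rw [map_div₀, map_add, hττ, map_ofNat]; ring
    obtain ⟨x, ⟨hxK, hxi, hxF, hxτ⟩, hmin⟩ := exists_near_min hne
    have hmin' : ∀ y ∈ K, IsIntegral ℤ y → y ∉ L k → (τ y = y ∨ τ y = - y) → T x < T y + 1 :=
      fun y h1 h2 h3 h4 => hmin y ⟨h1, h2, h3, h4⟩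
    have hsmall : ∀ y : E, IsIntegral ℤ y → T y ≤ C1 → y ∈ L k := hk1 k g1
    rcases hxτ with hxτ | hxτ
    · refine ⟨α0 + (x + δ) ^ 2, m + 1, hm.add_sq (add_mem hxK hδK) (hxi.add hδi), ?_⟩
      refine caseI_core K τ hτK hint n α0 hn k hα0F x δ hxF hδF hδ0 (Or.inl ⟨hxτ, hδτ⟩)
        hmin' C1 (by rw [hC1]; linarith) hsmall ?_
      intro κ s hκ hs hTs hq
      by_contra hcon
      exact hxF (hk3 k g3 x hxi (hD2 x ⟨κ, s, hκ, ⟨hs, hTs⟩, hq, hcon⟩))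
    · refine ⟨α0 + (x + 1) ^ 2, m + 1, hm.add_sq (add_mem hxK (one_mem _)) (hxi.add isIntegral_one), ?_⟩
      refine caseI_core K τ hτK hint n α0 hn k hα0F x 1 hxF (one_mem _) one_ne_zero
        (Or.inr ⟨hxτ, map_one τ⟩) hmin' C1 (by rw [hC1]; linarith) hsmall ?_
      intro κ s hκ hs hTs hq
      by_contra hcon
      exact hxF (hk2 k g2 x hxi (hD1 x ⟨κ, s, hκ, ⟨hs, hTs⟩, hq, hcon⟩))

/-- The heart of the case where `2` is unramified. -/
lemma caseII_core (K : IntermediateField ℚ E) (hKE : K ≤ E1)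
    (n : ℕ) (α0 : E) (hα0K : α0 ∈ K) (hα0 : ¬ SoS K n α0) (k : ℕ) (hα0F : α0 ∈ L k)
    (x δ : E) (hxK : x ∈ K) (hxi : IsIntegral ℤ x) (hxF : x ∉ L k)
    (hδ : δ = 0 ∨ δ = 1) (hxδF : (x + δ) ^ 2 ∉ L k)
    (hmin : ∀ y ∈ K, IsIntegral ℤ y → y ∉ L k → T x < T y + 1)
    (C1 : ℚ) (hC1 : tr α0 + 4 ≤ C1)
    (hsmall : ∀ y : E, IsIntegral ℤ y → T y ≤ C1 → y ∈ L k)
    (C2 : ℚ) (hx2 : 2 + (tr α0 + 4 + 2 * C2) / 2 ≤ T x)
    (hC2 : ∀ κ : E, (∃ c : Fin n → E, (∀ i, IsIntegral ℤ (c i) ∧ T (c i) ≤ C1) ∧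
        κ = α0 - ∑ i, (c i) ^ 2) → T (δ + κ ^ 2) ≤ C2) (hα0i : IsIntegral ℤ α0) :
    ¬ SoS K (n + 1) (α0 + (x + δ) ^ 2) := by
  rintro ⟨b, hb, hsum⟩
  have hT1 : T (1 : E) = 1 := by
    have := tr_algebraMap 1
    unfold T
    simpa using this
  have hδi : IsIntegral ℤ δ := by
    rcases hδ with h | h
    · rw [h]; exact isIntegral_zero
    · rw [h]; exact isIntegral_one
  have hδF : δ ∈ L k := by
    rcases hδ with h | h
    · rw [h]; exact zero_mem _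
    · rw [h]; exact one_mem _
  have hδK : δ ∈ K := by
    rcases hδ with h | h
    · rw [h]; exact zero_mem _
    · rw [h]; exact one_mem _
  have hTδ : T δ ≤ 1 := by
    rcases hδ with h | h
    · rw [h, T_zero]; norm_num
    · rw [h, hT1]
  -- general bound
  have hbound : ∀ c ∈ K, IsIntegral ℤ c → c ∈ L k → T (x + c) ≤ T x + 2 * T c + 1 := by
    intro c hcK hci hcF
    have h1 : x - c ∉ L k := by
      intro h
      apply hxF
      have : x = (x - c) + c := by ring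
      rw [this]
      exact add_mem h hcF
    have h2 := hmin (x - c) (sub_mem hxK hcK) (hxi.sub hci) h1
    have h3 : T (x + c) + T (x - c) = 2 * T x + 2 * T c := by
      unfold T
      rw [← map_add]
      have : (x + c) ^ 2 + (x - c) ^ 2 = x ^ 2 + x ^ 2 + (c ^ 2 + c ^ 2) := by ring
      rw [this, map_add, map_add, map_add]
      ring
    linarith
  have hTxδ := hbound δ hδK hδi hδF
  have htr : tr (α0 + (x + δ) ^ 2) = tr α0 + T (x + δ) := by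
    rw [map_add]; rfl
  have hex : ∃ i0, b i0 ∉ L k := by
    by_contra hcon
    push Not at hcon
    have h1 : α0 + (x + δ) ^ 2 ∈ L k := by
      rw [hsum]
      exact sum_mem (fun i _ => pow_mem (hcon i) 2)
    apply hxδF
    have : (x + δ) ^ 2 = (α0 + (x + δ) ^ 2) - α0 := by ring
    rw [this]
    exact sub_mem h1 hα0F
  obtain ⟨i0, hi0⟩ := hex
  set Z := b i0 with hZ
  have hZK : Z ∈ K := (hb i0).1
  have hZi : IsIntegral ℤ Z := (hb i0).2
  have hTZ := hmin Z hZK hZi hi0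
  have hsum2 : α0 + (x + δ) ^ 2 = Z ^ 2 + ∑ j : Fin n, (b (i0.succAbove j)) ^ 2 := by
    rw [hsum, Fin.sum_univ_succAbove _ i0]
  have htr2 : tr α0 + T (x + δ) = T Z + ∑ j : Fin n, T (b (i0.succAbove j)) := by
    rw [← htr, hsum2, map_add, tr_sum_sq]
    rfl
  have hnn : ∀ j : Fin n, 0 ≤ T (b (i0.succAbove j)) := fun j => T_nonneg _
  have hsumnn : 0 ≤ ∑ j : Fin n, T (b (i0.succAbove j)) := Finset.sum_nonneg (fun j _ => hnn j)
  have hTc : ∀ j : Fin n, T (b (i0.succAbove j)) ≤ C1 := by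
    intro j
    have : T (b (i0.succAbove j)) ≤ ∑ j : Fin n, T (b (i0.succAbove j)) :=
      Finset.single_le_sum (fun j _ => hnn j) (Finset.mem_univ j)
    linarith
  set κ := α0 - ∑ j : Fin n, (b (i0.succAbove j)) ^ 2 with hκ
  have hκF : κ ∈ L k := by
    refine sub_mem hα0F (sum_mem (fun j _ => pow_mem ?_ 2))
    exact hsmall _ (hb _).2 (hTc j)
  have hκK : κ ∈ K := sub_mem hα0K (sum_mem (fun j _ => pow_mem (hb _).1 2))
  have hκi : IsIntegral ℤ κ :=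
    hα0i.sub (IsIntegral.sum _ (fun j _ => (hb (i0.succAbove j)).2.pow 2))
  have hTκ : T (δ + κ ^ 2) ≤ C2 := hC2 κ ⟨fun j => b (i0.succAbove j), fun j => ⟨(hb _).2, hTc j⟩, rfl⟩
  have hZκ : Z ^ 2 = (x + δ) ^ 2 + κ := by
    rw [hκ]
    linear_combination - hsum2
  have hf4 := frob4 (hKE hκK) hκi
  -- `y = Z - x - δ - κ ^ 2` is divisible by `2`
  have hy1 : IsIntegral ℤ ((Z - x - (δ + κ ^ 2)) / 2) := by
    refine red (hKE (sub_mem (sub_mem hZK hxK) (add_mem hδK (pow_mem hκK 2))))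
      ((hZi.sub hxi).sub (hδi.add (hκi.pow 2))) ?_
    have e : (Z - x - (δ + κ ^ 2)) ^ 2 / 2 = ((x + δ) ^ 2 - Z * (x + δ)) + (κ ^ 4 - κ) / 2 + κ
        - (Z - x - δ) * κ ^ 2 := by
      linear_combination (1/2) * hZκ
    rw [e]
    exact (((((hxi.add hδi).pow 2).sub (hZi.mul (hxi.add hδi))).add hf4).add hκi).sub
      (((hZi.sub hxi).sub hδi).mul (hκi.pow 2))
  have hcK : δ + κ ^ 2 ∈ K := add_mem hδK (pow_mem hκK 2)
  have hcF : δ + κ ^ 2 ∈ L k := add_mem hδF (pow_mem hκF 2)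
  have hci : IsIntegral ℤ (δ + κ ^ 2) := hδi.add (hκi.pow 2)
  have hy2 : IsIntegral ℤ ((Z + (x + (δ + κ ^ 2))) / 2) := by
    have e : (Z + (x + (δ + κ ^ 2))) / 2 = (Z - x - (δ + κ ^ 2)) / 2 + (x + (δ + κ ^ 2)) := by ring
    rw [e]
    exact hy1.add (hxi.add hci)
  have hy1K : (Z - x - (δ + κ ^ 2)) / 2 ∈ K :=
    div_mem (sub_mem (sub_mem hZK hxK) hcK) (_root_.ofNat_mem _ 2)
  have hy2K : (Z + (x + (δ + κ ^ 2))) / 2 ∈ K :=
    div_mem (add_mem hZK (add_mem hxK hcK)) (_root_.ofNat_mem _ 2)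
  have hpar : T ((Z - x - (δ + κ ^ 2)) / 2) + T ((Z + (x + (δ + κ ^ 2))) / 2)
      = (T Z + T (x + (δ + κ ^ 2))) / 2 := by
    have h1 : tr (((Z - x - (δ + κ ^ 2)) / 2) ^ 2 + ((Z + (x + (δ + κ ^ 2))) / 2) ^ 2)
        = tr ((1/2 : ℚ) • (Z ^ 2 + (x + (δ + κ ^ 2)) ^ 2)) := by
      congr 1
      rw [Algebra.smul_def]
      have : algebraMap ℚ E (1/2) = 1/2 := by simp
      rw [this]
      ring
    unfold T
    rw [← map_add, h1, map_smul, map_add, smul_eq_mul]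
    ring
  have hb2 := hbound _ hcK hci hcF
  have hone : (Z - x - (δ + κ ^ 2)) / 2 ∈ L k ∨ (Z + (x + (δ + κ ^ 2))) / 2 ∈ L k := by
    by_contra hcon
    push Not at hcon
    have h1 := hmin _ hy1K hy1 hcon.1
    have h2 := hmin _ hy2K hy2 hcon.2
    linarith
  have hg : ∃ g ∈ L k, Z ^ 2 = (x + g) ^ 2 := by
    rcases hone with h | h
    · refine ⟨2 * ((Z - x - (δ + κ ^ 2)) / 2) + (δ + κ ^ 2),
        add_mem (mul_mem (_root_.ofNat_mem _ 2) h) hcF, by ring⟩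
    · refine ⟨- (2 * ((Z + (x + (δ + κ ^ 2))) / 2)) + (δ + κ ^ 2),
        add_mem (neg_mem (mul_mem (_root_.ofNat_mem _ 2) h)) hcF, by ring⟩
  obtain ⟨g, hgF, hg⟩ := hg
  have hgδ : g = δ := by
    by_contra hne
    apply hxF
    have hne' : g - δ ≠ 0 := sub_ne_zero.2 hne
    have : x = (δ ^ 2 + κ - g ^ 2) / (2 * (g - δ)) := by
      rw [eq_div_iff (mul_ne_zero two_ne_zero hne')]
      linear_combination hZκ - hg
    rw [this]
    exact div_mem (sub_mem (add_mem (pow_mem hδF 2) hκF) (pow_mem hgF 2))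
      (mul_mem (_root_.ofNat_mem _ 2) (sub_mem hgF hδF))
  have hκ0 : κ = 0 := by
    rw [hgδ] at hg
    linear_combination hg - hZκ
  apply hα0
  refine ⟨fun j => b (i0.succAbove j), fun j => hb _, ?_⟩
  rw [hκ] at hκ0
  linear_combination hκ0

theorem caseII (K : IntermediateField ℚ E) (hKE : K ≤ E1)
    (hinf : ∀ k, ∃ x ∈ K, IsIntegral ℤ x ∧ x ∉ L k) :
    ∀ n : ℕ, ∃ α : E, ∃ m : ℕ, SoS K m α ∧ ¬ SoS K n α := by
  intro n
  induction n with
  | zero => exact base_case K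
  | succ n ih =>
    obtain ⟨α0, m, hm, hn⟩ := ih
    have hα0K : α0 ∈ K := by
      obtain ⟨b, hb, rfl⟩ := hm
      exact sum_mem (fun i _ => pow_mem (hb i).1 2)
    have hα0i : IsIntegral ℤ α0 := by
      obtain ⟨b, hb, rfl⟩ := hm
      exact IsIntegral.sum _ (fun i _ => (hb i).2.pow 2)
    set C1 : ℚ := tr α0 + 4 with hC1
    obtain ⟨D1, hD1⟩ := exists_bound ((finite_kappa n α0 C1).image (fun κ => 0 + κ ^ 2))
    obtain ⟨D2, hD2⟩ := exists_bound ((finite_kappa n α0 C1).image (fun κ => 1 + κ ^ 2))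
    obtain ⟨k1, hk1⟩ := north C1
    obtain ⟨k2, hk2⟩ := north (2 + (tr α0 + 4 + 2 * D1) / 2)
    obtain ⟨k3, hk3⟩ := north (2 + (tr α0 + 4 + 2 * D2) / 2)
    obtain ⟨k4, hk4⟩ := exists_L α0
    obtain ⟨k, g1, g2, g3, g4⟩ : ∃ k, k1 ≤ k ∧ k2 ≤ k ∧ k3 ≤ k ∧ k4 ≤ k :=
      ⟨k1 + k2 + k3 + k4, by omega, by omega, by omega, by omega⟩
    have hα0F : α0 ∈ L k := L_mono g4 hk4
    have hne : {y : E | y ∈ K ∧ IsIntegral ℤ y ∧ y ∉ L k}.Nonempty := by
      obtain ⟨x, hxK, hxi, hxF⟩ := hinf k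
      exact ⟨x, hxK, hxi, hxF⟩
    obtain ⟨x, ⟨hxK, hxi, hxF⟩, hmin⟩ := exists_near_min hne
    have hmin' : ∀ y ∈ K, IsIntegral ℤ y → y ∉ L k → T x < T y + 1 :=
      fun y h1 h2 h3 => hmin y ⟨h1, h2, h3⟩
    have hsmall : ∀ y : E, IsIntegral ℤ y → T y ≤ C1 → y ∈ L k := hk1 k g1
    by_cases hx2 : (x + 0) ^ 2 ∈ L k
    · have hx1 : (x + 1) ^ 2 ∉ L k := by
        intro h
        apply hxF
        have : x = ((x + 1) ^ 2 - (x + 0) ^ 2 - 1) / 2 := by ring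
        rw [this]
        exact div_mem (sub_mem (sub_mem h hx2) (one_mem _)) (_root_.ofNat_mem _ 2)
      refine ⟨α0 + (x + 1) ^ 2, m + 1, hm.add_sq (add_mem hxK (one_mem _)) (hxi.add isIntegral_one), ?_⟩
      refine caseII_core K hKE n α0 hα0K hn k hα0F x 1 hxK hxi hxF (Or.inr rfl) hx1 hmin' C1
        (by rw [hC1]) hsmall D2 ?_ ?_ hα0i
      · by_contra hcon
        push Not at hcon
        exact hxF (hk3 k g3 x hxi hcon.le)
      · rintro κ hκ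
        exact hD2 _ ⟨κ, hκ, rfl⟩
    · refine ⟨α0 + (x + 0) ^ 2, m + 1, hm.add_sq (add_mem hxK (zero_mem _)) (hxi.add isIntegral_zero), ?_⟩
      refine caseII_core K hKE n α0 hα0K hn k hα0F x 0 hxK hxi hxF (Or.inl rfl) hx2 hmin' C1
        (by rw [hC1]) hsmall D1 ?_ ?_ hα0i
      · by_contra hcon
        push Not at hcon
        exact hxF (hk2 k g2 x hxi hcon.le)
      · rintro κ hκ
        exact hD1 _ ⟨κ, hκ, rfl⟩

/-- The main theorem inside `E`. -/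
theorem main (S : Set ℕ) (hinf : ∀ k, ∃ d ∈ S, r d ∉ L k) :
    ∀ n : ℕ, ∃ α : E, ∃ m : ℕ, SoS (fld S) m α ∧ ¬ SoS (fld S) n α := by
  have hinf' : ∀ k, ∃ x ∈ fld S, IsIntegral ℤ x ∧ x ∉ L k := by
    intro k
    obtain ⟨d, hd, hdk⟩ := hinf k
    exact ⟨r d, r_mem_fld hd, r_integral d, hdk⟩
  by_cases h1 : fld S ≤ E1
  · exact caseII (fld S) h1 hinf'
  · obtain ⟨d, hdS, hdE⟩ : ∃ d ∈ S, r d ∉ E1 := by
      by_contra hcon
      push Not at hcon
      exact h1 (fld_le_iff.2 hcon)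
    by_cases h2 : fld S ≤ Eodd
    · obtain ⟨σ, hσ1, hσ3⟩ := exists_sigma3
      have key : ∀ a ∈ E1, ∀ b ∈ E1, σ (a + b * r 3) = a - b * r 3 := by
        intro a ha b hb
        rw [map_add, map_mul, hσ1 a ha, hσ1 b hb, hσ3]; ring
      refine caseI (fld S) hinf' σ.toAlgHom (fun x hx => fld_stable _ hx) ?_ (r d) (r_mem_fld hdS)
        (r_integral d) ?_ ?_
      · intro x hx hxi
        obtain ⟨a, ha, b, hb, rfl⟩ := mem_adj (Eodd_le (h2 hx))
        have h3 : ((a + b * r 3) + σ.toAlgHom (a + b * r 3)) / 2 = a := by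
          have : σ.toAlgHom (a + b * r 3) = a - b * r 3 := key a ha b hb
          rw [this]; ring
        rw [h3]
        exact (int_add_3 ha hb hxi).1
      · rintro h0
        exact hdE (by rw [h0]; exact zero_mem _)
      · rcases map_r_self σ.toAlgHom d with h | h
        · exfalso
          apply hdE
          obtain ⟨a, ha, b, hb, hab⟩ := mem_adj (Eodd_le (h2 (r_mem_fld hdS)))
          have h3 : σ (r d) = a - b * r 3 := by rw [hab]; exact key a ha b hb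
          have h4 : σ (r d) = r d := h
          have h5 : r d = a := by
            rw [h3] at h4
            linear_combination (1/2) * hab - (1/2) * h4
          rw [h5]; exact ha
        · exact h
    · obtain ⟨d, hdS, hdE⟩ : ∃ d ∈ S, r d ∉ Eodd := by
        by_contra hcon
        push Not at hcon
        exact h2 (fld_le_iff.2 hcon)
      obtain ⟨σ, hσ1, hσ2⟩ := exists_sigma2
      have key : ∀ a ∈ Eodd, ∀ b ∈ Eodd, σ (a + b * r 2) = a - b * r 2 := by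
        intro a ha b hb
        rw [map_add, map_mul, hσ1 a ha, hσ1 b hb, hσ2]; ring
      refine caseI (fld S) hinf' σ.toAlgHom (fun x hx => fld_stable _ hx) ?_ (r d) (r_mem_fld hdS)
        (r_integral d) ?_ ?_
      · intro x hx hxi
        obtain ⟨a, ha, b, hb, rfl⟩ := mem_adj (top_le (show x ∈ (⊤ : IntermediateField ℚ E) from trivial))
        have h3 : ((a + b * r 2) + σ.toAlgHom (a + b * r 2)) / 2 = a := by
          have : σ.toAlgHom (a + b * r 2) = a - b * r 2 := key a ha b hb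
          rw [this]; ring
        rw [h3]
        exact int_add_2 ha hb hxi
      · rintro h0
        exact hdE (by rw [h0]; exact zero_mem _)
      · rcases map_r_self σ.toAlgHom d with h | h
        · exfalso
          apply hdE
          obtain ⟨a, ha, b, hb, hab⟩ := mem_adj
            (top_le (show r d ∈ (⊤ : IntermediateField ℚ E) from trivial))
          have h3 : σ (r d) = a - b * r 2 := by rw [hab]; exact key a ha b hb
          have h4 : σ (r d) = r d := h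
          have h5 : r d = a := by
            rw [h3] at h4
            linear_combination (1/2) * hab - (1/2) * h4
          rw [h5]; exact ha
        · exact h

end noRat

end Pool.Agent.MQ
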