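import Pool.Agent.MQ.Frob

set_option autoImplicit false

namespace Pool.Agent.MQ

open IntermediateField Polynomial

section noRat

attribute [-instance] DivisionRing.toRatAlgebra

lemma T_smul (q : ℚ) (x : E) : T (algebraMap ℚ E q * x) = q ^ 2 * T x := by
  unfold T
  have : (algebraMap ℚ E q * x) ^ 2 = (q ^ 2) • x ^ 2 := by
    rw [Algebra.smul_def, map_pow]; ring
  rw [this, map_smul, smul_eq_mul]

lemma T_nat_mul (n : ℕ) (x : E) : T ((n : E) * x) = (n : ℚ) ^ 2 * T x := by
  have := T_smul (n : ℚ) x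
  rwa [map_natCast] at this

lemma T_zero : T (0 : E) = 0 := by simp [T]

lemma not_mem_prime {k : ℕ} (h : r k ∉ L k) : k.Prime := by
  rcases Nat.eq_zero_or_pos k with rfl | hk
  · exact absurd (by rw [r_zero]; exact zero_mem _) h
  rcases Nat.lt_or_ge 1 k with hk1 | hk1
  · by_contra hp
    obtain ⟨a, b, hab, ha, hb⟩ : ∃ a b, k = a * b ∧ a < k ∧ b < k := by
      obtain ⟨a, ⟨b, hab⟩, ha1, ha2⟩ := (Nat.not_prime_iff_exists_dvd_lt (by omega : 2 ≤ k)).1 hp
      refine ⟨a, b, hab, ha2, ?_⟩
      have hb0 : 0 < b := by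
        rcases Nat.eq_zero_or_pos b with rfl | hb
        · omega
        · exact hb
      nlinarith
    apply h
    rw [hab, r_mul]
    rw [← hab]
    exact mul_mem (r_mem_L ha) (r_mem_L hb)
  · have : k = 1 := by omega
    subst this
    exact absurd (by rw [r_one]; exact one_mem _) h

/-- if `x ∈ L (k+1) \ L k` is integral then `T x ≥ k/4` -/
lemma north_lower {k : ℕ} {x : E} (hx : x ∈ L (k + 1)) (hx' : x ∉ L k) (hi : IsIntegral ℤ x) :
    (k : ℚ) / 4 ≤ T x := by
  have hr : r k ∉ L k := by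
    intro h
    apply hx'
    rw [L_succ'] at hx
    obtain ⟨a, ha, b, hb, rfl⟩ := mem_adj hx
    exact add_mem ha (mul_mem hb h)
  have hp := not_mem_prime hr
  have hx0 : x ≠ 0 := by
    rintro rfl
    exact hx' (zero_mem _)
  by_cases hp2 : k = 2
  · subst hp2
    have := one_le_T hi hx0
    norm_num
    linarith
  · rw [L_succ'] at hx
    obtain ⟨a, ha, b, hb, hab, h2a, h2b, -, hT⟩ := step hx hi
    have hb0 : b ≠ 0 := by
      rintro rfl
      apply hx'
      rw [hab]
      simpa using ha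
    have hk0 : (k : E) ≠ 0 := by exact_mod_cast hp.ne_zero
    -- `w = 2 b` is integral
    have hρ : IsIntegral ℤ (k * (2 * b)) := by
      have : (k : E) * (2 * b) = (2 * b * r k) * r k := by
        rw [mul_assoc (2 * b), r_sq']; ring
      rw [this]
      exact h2b.mul (r_integral k)
    have hρM : (k : E) * (2 * b) ∈ L k :=
      mul_mem (_root_.natCast_mem _ k) (mul_mem (_root_.ofNat_mem _ 2) hb)
    have hF := frob_L hp hp2 k le_rfl _ hρM hρ
    have hw : IsIntegral ℤ (2 * b) := by
      have hk2 : k ^ 2 = (k ^ 2 - 2) + 2 := by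
        have := hp.two_le
        have : 2 ≤ k ^ 2 := by nlinarith
        omega
      have h1 : (2 * b) = (k * (2 * b)) ^ (k ^ 2 - 2) * (2 * b * r k) ^ 2
          - ((k * (2 * b)) ^ (k ^ 2) - k * (2 * b)) / k := by
        have h3 : (2 * b * r k) ^ 2 = (k * (2 * b)) ^ 2 / k := by
          rw [mul_pow, r_sq]
          field_simp
        rw [h3]
        conv_rhs => rw [hk2]
        rw [pow_add]
        simp only [Nat.add_sub_cancel]
        field_simp
        ring
      rw [h1]
      exact ((hρ.pow _).mul (h2b.pow 2)).sub hF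
    have h2b0 : 2 * b ≠ 0 := mul_ne_zero two_ne_zero hb0
    have hTw := one_le_T hw h2b0
    have hTb : T (2 * b) = 4 * T b := by
      have := T_nat_mul 2 b
      push_cast at this
      rw [this]; norm_num
    rw [hTb] at hTw
    have hTa := T_nonneg a
    rw [hT]
    have : (0 : ℚ) ≤ k := Nat.cast_nonneg k
    nlinarith

lemma north_aux {C : ℚ} {k0 : ℕ} (hk0 : 4 * C < k0) {x : E} (hi : IsIntegral ℤ x) (hT : T x ≤ C) :
    x ∈ L k0 := by
  classical
  have hex := exists_L x
  set k := Nat.find hex with hk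
  have hxk : x ∈ L k := Nat.find_spec hex
  rcases le_or_gt k k0 with h | h
  · exact L_mono h hxk
  · exfalso
    obtain ⟨j, hj⟩ : ∃ j, k = j + 1 := ⟨k - 1, by omega⟩
    have hnot : x ∉ L j := Nat.find_min hex (by omega)
    rw [hj] at hxk
    have := north_lower hxk hnot hi
    have h2 : (k0 : ℚ) ≤ j := by
      have : k0 ≤ j := by omega
      exact_mod_cast this
    linarith

lemma north (C : ℚ) : ∃ k0 : ℕ, ∀ k ≥ k0, ∀ x : E, IsIntegral ℤ x → T x ≤ C → x ∈ L k := by
  obtain ⟨k0, hk0⟩ := exists_nat_gt (4 * C)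
  refine ⟨k0, fun k hk x hi hT => L_mono hk (north_aux hk0 hi hT)⟩

lemma finite_L (k : ℕ) : ∀ C : ℚ, {x : E | x ∈ L k ∧ IsIntegral ℤ x ∧ T x ≤ C}.Finite := by
  induction k with
  | zero =>
    intro C
    obtain ⟨N, hN⟩ := exists_nat_gt C
    have : {x : E | x ∈ L 0 ∧ IsIntegral ℤ x ∧ T x ≤ C} ⊆
        (fun n : ℤ => (n : E)) '' (Set.Icc (-(N : ℤ)) N) := by
      rintro x ⟨hx, hi, hT⟩
      rw [L_zero, IntermediateField.mem_bot] at hx
      obtain ⟨q, rfl⟩ := hx
      have hq : IsIntegral ℤ q := by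
        exact (isIntegral_algHom_iff ((Algebra.ofId ℚ E).restrictScalars ℤ) (algebraMap ℚ E).injective).1 hi
      obtain ⟨n, rfl⟩ := IsIntegrallyClosed.isIntegral_iff.1 hq
      refine ⟨n, ?_, by simp⟩
      have h1 : T (algebraMap ℚ E (algebraMap ℤ ℚ n)) = (n : ℚ) ^ 2 := by
        unfold T
        rw [← map_pow, tr_algebraMap]
        simp
      rw [h1] at hT
      have h2 : ((n ^ 2 : ℤ) : ℚ) < ((N : ℤ) : ℚ) := by
        push_cast
        linarith
      have h3 : n ^ 2 < (N : ℤ) := by exact_mod_cast h2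
      constructor <;> nlinarith
    exact Set.Finite.subset (Set.Finite.image _ (Set.finite_Icc _ _)) this
  | succ k ih =>
    intro C
    rcases Nat.eq_zero_or_pos k with rfl | hk0
    · refine Set.Finite.subset (ih C) ?_
      rintro x ⟨hx, hi, hT⟩
      exact ⟨L_one hx, hi, hT⟩
    · have hfin := (ih (4 * C)).prod (ih (4 * k * C))
      refine Set.Finite.subset (hfin.image (fun y : E × E => y.1 / 2 + y.2 / (2 * k) * r k)) ?_
      rintro x ⟨hx, hi, hT⟩
      rw [L_succ'] at hx
      obtain ⟨a, ha, b, hb, hab, h2a, h2b, -, hTab⟩ := step hx hi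
      have hTa := T_nonneg a
      have hTb := T_nonneg b
      have hkq : (0 : ℚ) < k := by exact_mod_cast hk0
      have hk0' : (k : E) ≠ 0 := by exact_mod_cast hk0.ne'
      refine ⟨(2 * a, 2 * b * k), ⟨⟨mul_mem (_root_.ofNat_mem _ 2) ha, h2a, ?_⟩,
        ⟨mul_mem (mul_mem (_root_.ofNat_mem _ 2) hb) (_root_.natCast_mem _ k), ?_, ?_⟩⟩, ?_⟩
      · have := T_nat_mul 2 a
        push_cast at this
        rw [this]
        nlinarith
      · have : 2 * b * (k : E) = (2 * b * r k) * r k := by rw [mul_assoc (2 * b), r_sq']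
        rw [this]
        exact h2b.mul (r_integral k)
      · have h3 : 2 * b * (k : E) = ((2 * k : ℕ) : E) * b := by push_cast; ring
        have h4 := T_nat_mul (2 * k) b
        simp only
        rw [h3, h4]
        push_cast
        nlinarith
      · simp only
        rw [hab]
        field_simp

lemma finite_north (C : ℚ) : {x : E | IsIntegral ℤ x ∧ T x ≤ C}.Finite := by
  obtain ⟨k0, hk0⟩ := north C
  refine Set.Finite.subset (finite_L k0 C) ?_
  rintro x ⟨hi, hT⟩
  exact ⟨hk0 k0 le_rfl x hi hT, hi, hT⟩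

end noRat

end Pool.Agent.MQ
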