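import Pool.Agent.MQ.Trace

set_option autoImplicit false

namespace Pool.Agent.MQ

open IntermediateField Polynomial

section noRat

attribute [-instance] DivisionRing.toRatAlgebra

/-- the field `M(√d)` -/
noncomputable def adj (M : IntermediateField ℚ E) (d : ℕ) : IntermediateField ℚ E :=
  M ⊔ IntermediateField.adjoin ℚ {r d}

lemma r_sq' (n : ℕ) : r n * r n = (n : E) := by
  rw [← pow_two, r_sq]

/-- the algebra of all `a + b √d`, `a, b ∈ M` -/
def quadAlg (M : IntermediateField ℚ E) (d : ℕ) : Subalgebra ℚ E where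
  carrier := {x | ∃ a ∈ M, ∃ b ∈ M, x = a + b * r d}
  mul_mem' := by
    rintro _ _ ⟨a, ha, b, hb, rfl⟩ ⟨c, hc, e, he, rfl⟩
    refine ⟨a * c + b * e * (d : E), add_mem (mul_mem ha hc) (mul_mem (mul_mem hb he) (_root_.natCast_mem M d)),
      a * e + b * c, add_mem (mul_mem ha he) (mul_mem hb hc), ?_⟩
    rw [← r_sq' d]
    ring
  add_mem' := by
    rintro _ _ ⟨a, ha, b, hb, rfl⟩ ⟨c, hc, e, he, rfl⟩
    exact ⟨a + c, add_mem ha hc, b + e, add_mem hb he, by ring⟩
  algebraMap_mem' := by
    intro q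
    exact ⟨algebraMap ℚ E q, M.algebraMap_mem q, 0, zero_mem M, by simp⟩

lemma mem_adj {M : IntermediateField ℚ E} {d : ℕ} {x : E} (hx : x ∈ adj M d) :
    ∃ a ∈ M, ∃ b ∈ M, x = a + b * r d := by
  have h : adj M d ≤ subalgebraEquivIntermediateField (quadAlg M d) := by
    unfold adj
    rw [sup_le_iff]
    constructor
    · intro y hy
      exact ⟨y, hy, 0, zero_mem M, by simp⟩
    · rw [IntermediateField.adjoin_simple_le_iff]
      exact ⟨0, zero_mem M, 1, one_mem M, by simp⟩
  exact h hx

lemma isIntegral_nat (n : ℕ) : IsIntegral ℤ (n : E) := by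
  simpa using (isIntegral_algebraMap (R := ℤ) (A := E) (x := (n : ℤ)))

lemma isIntegral_two : IsIntegral ℤ (2 : E) := by
  simpa using isIntegral_nat 2

/-- The basic step: an integral element of `M(√d)`. -/
lemma step {M : IntermediateField ℚ E} {d : ℕ} {x : E} (hx : x ∈ adj M d) (hi : IsIntegral ℤ x) :
    ∃ a ∈ M, ∃ b ∈ M, x = a + b * r d ∧ IsIntegral ℤ (2 * a) ∧ IsIntegral ℤ (2 * b * r d) ∧
      IsIntegral ℤ (a - b * r d) ∧ T x = T a + d * T b := by
  by_cases hd : r d ∈ M
  · obtain ⟨a, ha, b, hb, hab⟩ := mem_adj hx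
    have hxM : x ∈ M := by
      rw [hab]
      exact add_mem ha (mul_mem hb hd)
    refine ⟨x, hxM, 0, zero_mem M, by simp, ?_, ?_, by simpa using hi, ?_⟩
    · exact isIntegral_two.mul hi
    · simpa using isIntegral_zero
    · have : T (0 : E) = 0 := by simp [T]
      rw [this]; ring
  · obtain ⟨σ, hσM, hσ⟩ := exists_conj M d hd
    obtain ⟨a, ha, b, hb, rfl⟩ := mem_adj hx
    have h1 : σ (a + b * r d) = a - b * r d := by
      rw [map_add, map_mul, hσM a ha, hσM b hb, hσ]; ring
    have h2 : IsIntegral ℤ (a - b * r d) := by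
      rw [← h1]
      exact hi.map (σ.toAlgHom.restrictScalars ℤ)
    refine ⟨a, ha, b, hb, rfl, ?_, ?_, h2, ?_⟩
    · have := hi.add h2
      have h3 : (a + b * r d) + (a - b * r d) = 2 * a := by ring
      rwa [h3] at this
    · have := hi.sub h2
      have h3 : (a + b * r d) - (a - b * r d) = 2 * b * r d := by ring
      rwa [h3] at this
    · have h4 : tr (2 * (a * b * r d)) = 0 := by
        have h5 : tr (σ (2 * (a * b * r d))) = tr (2 * (a * b * r d)) := tr_map σ _
        have h6 : σ (2 * (a * b * r d)) = - (2 * (a * b * r d)) := by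
          simp only [map_mul, hσM a ha, hσM b hb, hσ, map_ofNat]; ring
        rw [h6, map_neg] at h5
        linarith
      unfold T
      have h7 : (a + b * r d) ^ 2 = a ^ 2 + (d : ℚ) • b ^ 2 + 2 * (a * b * r d) := by
        rw [Algebra.smul_def, map_natCast, ← r_sq' d]
        ring
      rw [h7, map_add, map_add, h4, map_smul, smul_eq_mul]
      ring

end noRat

end Pool.Agent.MQ
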