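import Pool.Agent.MQ.Basic

set_option autoImplicit false

namespace Pool.Agent.MQ

open IntermediateField Polynomial

section noRat

attribute [-instance] DivisionRing.toRatAlgebra

/-- the normalized trace on `E` -/
noncomputable def tr : E →ₗ[ℚ] ℚ := Algebra.normalizedTrace ℚ E

/-- the quadratic form `T x = tr (x ^ 2)` -/
noncomputable def T (x : E) : ℚ := tr (x ^ 2)

lemma tr_map (σ : E →ₐ[ℚ] E) (x : E) : tr (σ x) = tr x :=
  Algebra.normalizedTrace_map ℚ E σ x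

lemma tr_algebraMap (q : ℚ) : tr (algebraMap ℚ E q) = q :=
  Algebra.normalizedTrace_algebraMap_apply_eq_self ℚ E q

lemma T_map (σ : E →ₐ[ℚ] E) (x : E) : T (σ x) = T x := by
  unfold T
  rw [← map_pow, tr_map]

/-- the embedding of `L k` in the reals -/
noncomputable def embL (k : ℕ) : L k →+* ℝ := emb.comp ((L k).val : L k →+* E)

lemma embL_apply (k : ℕ) (x : L k) : embL k x = emb (x : E) := rfl

lemma embL_algebraMap (k : ℕ) (q : ℚ) : embL k (algebraMap ℚ (L k) q) = (q : ℝ) := by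
  rw [← RingHom.comp_apply]
  exact eq_ratCast _ q

lemma finrank_L_pos (k : ℕ) : 0 < Module.finrank ℚ (L k) := Module.finrank_pos

lemma tr_eq_sum (k : ℕ) (x : L k) : (Module.finrank ℚ (L k) : ℝ) * ((tr (x : E) : ℚ) : ℝ) =
    ∑ σ : (L k) ≃ₐ[ℚ] (L k), embL k (σ x) := by
  have h1 : tr (x : E) = (Module.finrank ℚ (L k) : ℚ)⁻¹ • Algebra.trace ℚ (L k) x := by
    unfold tr
    rw [Algebra.normalizedTrace_intermediateField, Algebra.normalizedTrace_eq_of_finiteDimensional_apply]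
  have h2 : (Module.finrank ℚ (L k) : ℚ) * tr (x : E) = Algebra.trace ℚ (L k) x := by
    rw [h1, smul_eq_mul, mul_inv_cancel_left₀]
    exact_mod_cast (finrank_L_pos k).ne'
  have h3 := trace_eq_sum_automorphisms (K := ℚ) x
  have h4 := congrArg (embL k) h3
  rw [← h2, embL_algebraMap, map_sum] at h4
  rw [← h4]
  push_cast
  rfl

lemma T_eq_sum (k : ℕ) (x : L k) : (Module.finrank ℚ (L k) : ℝ) * ((T (x : E) : ℚ) : ℝ) =
    ∑ σ : (L k) ≃ₐ[ℚ] (L k), (embL k (σ x)) ^ 2 := by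
  have := tr_eq_sum k (x ^ 2)
  simp only [map_pow] at this
  exact this

lemma T_nonneg (x : E) : 0 ≤ T x := by
  obtain ⟨k, hk⟩ := exists_L x
  have h := T_eq_sum k ⟨x, hk⟩
  have h1 : 0 ≤ (Module.finrank ℚ (L k) : ℝ) * ((T x : ℚ) : ℝ) := by
    rw [h]
    exact Finset.sum_nonneg (fun _ _ => sq_nonneg _)
  have h2 : (0 : ℝ) < (Module.finrank ℚ (L k) : ℝ) := by exact_mod_cast finrank_L_pos k
  have h3 : (0 : ℝ) ≤ ((T x : ℚ) : ℝ) := by
    by_contra hc
    push Not at hc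
    nlinarith
  exact_mod_cast h3

lemma one_le_T {x : E} (hx : IsIntegral ℤ x) (h0 : x ≠ 0) : 1 ≤ T x := by
  obtain ⟨k, hk⟩ := exists_L x
  set x' : L k := ⟨x, hk⟩ with hx'
  have hint' : IsIntegral ℤ x' := by
    have : IsIntegral ℤ ((L k).val x') := hx
    exact (isIntegral_algHom_iff ((L k).val.restrictScalars ℤ) (L k).val.injective).1 this
  have hx'0 : x' ≠ 0 := by
    intro h
    apply h0
    exact congrArg Subtype.val h
  have hnorm : IsIntegral ℤ (Algebra.norm ℚ x') := Algebra.isIntegral_norm ℚ hint'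
  obtain ⟨n, hn⟩ := IsIntegrallyClosed.isIntegral_iff.1 hnorm
  have hn0 : n ≠ 0 := by
    rintro rfl
    rw [map_zero] at hn
    exact hx'0 (Algebra.norm_eq_zero_iff.1 hn.symm)
  have hprod := congrArg (embL k) (Algebra.norm_eq_prod_automorphisms ℚ x')
  rw [embL_algebraMap, map_prod, ← hn] at hprod
  have hN : (0 : ℝ) < (Module.finrank ℚ (L k) : ℝ) := by exact_mod_cast finrank_L_pos k
  have hcard : (Fintype.card ((L k) ≃ₐ[ℚ] (L k)) : ℝ) = (Module.finrank ℚ (L k) : ℝ) := by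
    rw [← Nat.card_eq_fintype_card, IsGalois.card_aut_eq_finrank]
  have hsum := T_eq_sum k x'
  have hprod2 : (1 : ℝ) ≤ ∏ σ : (L k) ≃ₐ[ℚ] (L k), (embL k (σ x')) ^ 2 := by
    rw [Finset.prod_pow, ← hprod]
    have : (1 : ℝ) ≤ |((algebraMap ℤ ℚ n : ℚ) : ℝ)| := by
      simp only [algebraMap_int_eq, eq_intCast, Rat.cast_intCast]
      exact_mod_cast Int.one_le_abs hn0
    nlinarith [sq_abs ((algebraMap ℤ ℚ n : ℚ) : ℝ)]
  have hamgm := Real.geom_mean_le_arith_mean_weighted (Finset.univ : Finset ((L k) ≃ₐ[ℚ] (L k)))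
    (fun _ => (Module.finrank ℚ (L k) : ℝ)⁻¹) (fun σ => (embL k (σ x')) ^ 2)
    (fun _ _ => inv_nonneg.2 hN.le)
    (by simp [hcard, hN.ne'])
    (fun _ _ => sq_nonneg _)
  rw [Real.finset_prod_rpow _ _ (fun _ _ => sq_nonneg _), ← Finset.mul_sum, ← hsum,
    inv_mul_cancel_left₀ hN.ne'] at hamgm
  have h1 : (1 : ℝ) ≤ ((T x : ℚ) : ℝ) := by
    refine le_trans ?_ hamgm
    exact Real.one_le_rpow hprod2 (inv_nonneg.2 hN.le)
  exact_mod_cast h1

end noRat

end Pool.Agent.MQ
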